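import Mathlib

/-!
# Generic maps: elimination

A finite family of polynomials in `z` whose coefficients are polynomials in the parameters `c`. If for
one value `c0` of the parameters there is no common zero `z ≠ 0`, then there is a nonzero polynomial
`Δ` in the parameters such that for all `c` with `Δ (c) ≠ 0` there is no line of common zeros.
-/

set_option autoImplicit false

namespace Pool.Agent.Helper61.DG

open MvPolynomial

section hom

variable {Ω : Type*} [Field Ω] {n : ℕ}

theorem eval_smul_hom {q : MvPolynomial (Fin n) Ω} {e : ℕ} (hq : q.IsHomogeneous e) (t : Ω)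
    (z : Fin n → Ω) : eval (fun i => t * z i) q = t ^ e * eval z q := by
  rw [eval_eq, eval_eq, Finset.mul_sum]
  refine Finset.sum_congr rfl fun m hm => ?_
  rw [hq.degree_eq_sum_deg_support hm]
  simp only [mul_pow, Finset.prod_mul_distrib, Finset.prod_pow_eq_pow_sum]
  ring

/-- if a polynomial vanishes at `t z` for all positive integers `t`, so do its homogeneous components
at `z` -/
theorem hc_zero [CharZero Ω] {q : MvPolynomial (Fin n) Ω} {z : Fin n → Ω}
    (h : ∀ t : ℕ, 0 < t → eval (fun i => (t : Ω) * z i) q = 0) (e : ℕ) :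
    eval z (homogeneousComponent e q) = 0 := by
  by_cases he : e ≤ q.totalDegree
  · set Q : Polynomial Ω := ∑ i ∈ Finset.range (q.totalDegree + 1),
      Polynomial.C (eval z (homogeneousComponent i q)) * Polynomial.X ^ i with hQ
    have h1 : ∀ t : ℕ, 0 < t → Q.eval (t : Ω) = 0 := by
      intro t ht
      have h2 := h t ht
      conv at h2 => lhs; rw [← sum_homogeneousComponent q]
      rw [map_sum] at h2
      rw [hQ, Polynomial.eval_finsetSum, ← h2]
      refine Finset.sum_congr rfl fun i _ => ?_
      rw [eval_smul_hom (homogeneousComponent_isHomogeneous i q), Polynomial.eval_mul,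
        Polynomial.eval_C, Polynomial.eval_pow, Polynomial.eval_X, mul_comm]
    have h3 : Q = 0 := by
      apply Polynomial.eq_zero_of_infinite_isRoot
      refine Set.Infinite.mono (s := Set.range fun t : ℕ => ((t + 1 : ℕ) : Ω)) ?_ ?_
      · rintro _ ⟨t, rfl⟩
        exact h1 (t + 1) (Nat.succ_pos t)
      · exact Set.infinite_range_of_injective fun a b hab => by
          have := Nat.cast_injective (R := Ω) hab
          omega
    have h4 : Q.coeff e = eval z (homogeneousComponent e q) := by
      rw [hQ, Polynomial.finsetSum_coeff]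
      simp only [Polynomial.coeff_C_mul, Polynomial.coeff_X_pow, mul_ite, mul_one, mul_zero]
      rw [Finset.sum_ite_eq, if_pos (Finset.mem_range.2 (Nat.lt_succ_of_le he))]
    rw [← h4, h3, Polynomial.coeff_zero]
  · rw [homogeneousComponent_eq_zero _ _ (not_le.1 he), map_zero]

/-- monomials of given degree -/
abbrev MonT (n T : ℕ) : Type :=
  {s : Fin n →₀ ℕ // s ∈ (Finset.univ : Finset (Fin n)).finsuppAntidiag T}

theorem mem_monT {n T : ℕ} {s : Fin n →₀ ℕ} :
    s ∈ (Finset.univ : Finset (Fin n)).finsuppAntidiag T ↔ s.degree = T := by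
  rw [Finset.mem_finsuppAntidiag, Finsupp.degree_eq_sum]
  exact ⟨fun h => h.1, fun h => ⟨h, Finset.subset_univ _⟩⟩

theorem eval_hc (T : ℕ) (q : MvPolynomial (Fin n) Ω) (z : Fin n → Ω) :
    eval z (homogeneousComponent T q) = ∑ s : MonT n T, coeff s.1 q * ∏ i, z i ^ s.1 i := by
  have h1 : homogeneousComponent T q = ∑ s : MonT n T, monomial s.1 (coeff s.1 q) := by
    ext m
    rw [coeff_homogeneousComponent, coeff_sum]
    simp only [coeff_monomial]
    split_ifs with h
    · rw [Finset.sum_eq_single (⟨m, mem_monT.2 h⟩ : MonT n T)]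
      · rw [if_pos rfl]
      · rintro ⟨b, hb⟩ - hne
        rw [if_neg]
        rintro rfl
        exact hne rfl
      · intro h'
        exact absurd (Finset.mem_univ _) h'
    · refine (Finset.sum_eq_zero ?_).symm
      rintro ⟨b, hb⟩ -
      rw [if_neg]
      rintro rfl
      exact h (mem_monT.1 hb)
  rw [h1, map_sum]
  refine Finset.sum_congr rfl fun s _ => ?_
  rw [eval_monomial]
  congr 1
  exact Finsupp.prod_fintype _ _ fun i => pow_zero _

end hom

theorem elim {k Ω : Type*} [Field k] [IsAlgClosed k] [Field Ω] [CharZero Ω] [Algebra k Ω]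
    {κ ι : Type*} [Finite ι] {n : ℕ} (g : ι → MvPolynomial (Fin n) (MvPolynomial κ k)) (c0 : κ → k)
    (h0 : ∀ z : Fin n → k, (∀ j, eval z (MvPolynomial.map (eval c0) (g j)) = 0) → z = 0) :
    ∃ Δ : MvPolynomial κ k, Δ ≠ 0 ∧ ∀ c : κ → Ω, aeval c Δ ≠ 0 → ∀ z : Fin n → Ω,
      (∀ t : ℕ, 0 < t → ∀ j, eval (fun i => (t : Ω) * z i)
        (MvPolynomial.map (eval₂Hom (algebraMap k Ω) c) (g j)) = 0) → z = 0 := by
  have := Fintype.ofFinite ι
  set J : Ideal (MvPolynomial (Fin n) k) :=
    Ideal.span (Set.range fun j => MvPolynomial.map (eval c0) (g j)) with hJ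
  have h1 : ∀ i, (X i : MvPolynomial (Fin n) k) ∈ J.radical := by
    intro i
    rw [← vanishingIdeal_zeroLocus_eq_radical (K := k), mem_vanishingIdeal_iff]
    intro z hz
    rw [aeval_X, h0 z fun j => hz _ (Ideal.subset_span ⟨j, rfl⟩)]
    rfl
  choose a ha using h1
  set m : ℕ := Finset.univ.sup a with hm
  set T : ℕ := n * m + 1 with hT
  have h2 : ∀ s : MonT n T, monomial s.1 (1 : k) ∈ J := by
    rintro ⟨s, hs⟩
    rw [mem_monT, Finsupp.degree_eq_sum] at hs
    obtain ⟨i, hi⟩ : ∃ i, m < s i := by
      by_contra hcon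
      push Not at hcon
      have h3 : ∑ i, s i ≤ ∑ _i : Fin n, m := Finset.sum_le_sum fun i _ => hcon i
      rw [Finset.sum_const, Finset.card_univ, Fintype.card_fin, smul_eq_mul] at h3
      omega
    have h4 : (X i : MvPolynomial (Fin n) k) ^ s i ∈ J := by
      have h5 : a i ≤ m := Finset.le_sup (Finset.mem_univ i)
      exact J.pow_mem_of_pow_mem (ha i) (by omega)
    have h6 : (monomial (Finsupp.single i (s i)) (1 : k)) = X i ^ s i := (X_pow_eq_monomial).symm
    have h7 : (monomial s (1 : k)) = monomial (s.erase i) 1 * X i ^ s i := by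
      rw [← h6, monomial_mul, one_mul, Finsupp.erase_add_single]
    change monomial s (1 : k) ∈ J
    rw [h7]
    exact J.mul_mem_left _ h4
  have h3 : ∀ s : MonT n T, ∃ b : ι → MvPolynomial (Fin n) k,
      ∑ j, b j * MvPolynomial.map (eval c0) (g j) = monomial s.1 (1 : k) := by
    intro s
    have h4 := h2 s
    rw [hJ, Ideal.mem_span_range_iff_exists_fun] at h4
    exact h4
  choose b hb using h3
  let p : MonT n T → MvPolynomial (Fin n) (MvPolynomial κ k) := fun s =>
    ∑ j, MvPolynomial.map C (b s j) * g j
  let H : Matrix (MonT n T) (MonT n T) (MvPolynomial κ k) := fun s s' => coeff s'.1 (p s)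
  refine ⟨H.det, ?_, ?_⟩
  · intro h
    have h4 : (eval c0) H.det = 1 := by
      rw [RingHom.map_det, ← Matrix.det_one (n := MonT n T)]
      congr 1
      ext s s'
      rw [RingHom.mapMatrix_apply, Matrix.map_apply]
      change (eval c0) (coeff s'.1 (p s)) = _
      rw [← coeff_map, map_sum]
      have h5 : ∑ j, MvPolynomial.map (eval c0) (MvPolynomial.map C (b s j) * g j) =
          monomial s.1 (1 : k) := by
        rw [← hb s]
        refine Finset.sum_congr rfl fun j _ => ?_
        rw [map_mul, MvPolynomial.map_map]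
        congr 1
        have : (eval c0).comp (C : k →+* MvPolynomial κ k) = RingHom.id k := by
          ext x
          simp
        rw [this, MvPolynomial.map_id]
      rw [h5, coeff_monomial, Matrix.one_apply]
      by_cases hss : s = s'
      · rw [if_pos hss, if_pos (congrArg Subtype.val hss)]
      · rw [if_neg hss, if_neg fun h => hss (Subtype.ext h)]
    rw [h, map_zero] at h4
    exact zero_ne_one h4
  · intro c hc z hz
    have h4 : (aeval c) H.det = ((eval₂Hom (algebraMap k Ω) c).mapMatrix H).det := by
      rw [← RingHom.map_det]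
      rfl
    rw [h4] at hc
    have h5 : ((eval₂Hom (algebraMap k Ω) c).mapMatrix H).mulVec
        (fun s' : MonT n T => ∏ i, z i ^ s'.1 i) = 0 := by
      funext s
      have h6 := hc_zero (q := MvPolynomial.map (eval₂Hom (algebraMap k Ω) c) (p s)) (z := z) ?_ T
      · rw [eval_hc] at h6
        rw [Pi.zero_apply, ← h6]
        simp only [Matrix.mulVec, dotProduct, RingHom.mapMatrix_apply, Matrix.map_apply, coeff_map]
        rfl
      · intro t ht
        change eval _ (MvPolynomial.map _ (∑ j, MvPolynomial.map C (b s j) * g j)) = 0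
        rw [map_sum, map_sum]
        refine Finset.sum_eq_zero fun j _ => ?_
        rw [map_mul, map_mul, hz t ht j, mul_zero]
    have h7 := Matrix.eq_zero_of_mulVec_eq_zero hc h5
    funext i
    have h8 := congrFun h7 ⟨Finsupp.single i T, mem_monT.2 (by simp)⟩
    simp only [Pi.zero_apply] at h8
    rw [Finset.prod_eq_zero_iff] at h8
    obtain ⟨j, -, hj⟩ := h8
    by_cases hji : j = i
    · subst hji
      rw [Finsupp.single_eq_same] at hj
      exact (pow_eq_zero_iff (by omega)).1 hj
    · rw [Finsupp.single_eq_of_ne hji, pow_zero] at hj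
      exact absurd hj one_ne_zero

end Pool.Agent.Helper61.DG
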