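import Mathlib
import Pool.Agent.Helper52.RP.Var
import Pool.Agent.Helper61.DG.Elim

/-!
# Generic maps: multiplicities of compositions

`LM G z s m`: the polynomials are spanned by `m` elements modulo the ideal of the system `G = G (z)` and
the power `s` of the ideal of `z`.
-/

set_option autoImplicit false

namespace Pool.Agent.Helper61.DG

open MvPolynomial
open Pool.Agent.Helper52.RP (mI mem_mI Sp mult sp_one isUnit_mk)

variable {L : Type*} [Field L] {σ : Type*}

/-- The ideal of the system of equations `G = G (z)`. -/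
noncomputable def sys (G : σ → MvPolynomial σ L) (z : σ → L) : Ideal (MvPolynomial σ L) :=
  Ideal.span (Set.range fun i => G i - C (eval z (G i)))

/-- The local multiplicity, truncated at `s`, is at most `m`. -/
def LM (G : σ → MvPolynomial σ L) (z : σ → L) (s m : ℕ) : Prop := Sp (sys G z ⊔ mI z ^ s) m

theorem mI_eq (P : σ → L) : mI P = Ideal.span (Set.range fun i => X i - C (P i)) := by
  apply le_antisymm
  · intro f hf
    have key : ∀ f : MvPolynomial σ L,
        f - C (eval P f) ∈ Ideal.span (Set.range fun i => X i - C (P i)) := by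
      intro f
      induction f using MvPolynomial.induction_on with
      | C a => simp
      | add f g hf hg =>
        have e1 : f + g - C (eval P (f + g)) = (f - C (eval P f)) + (g - C (eval P g)) := by
          rw [map_add, C_add]
          ring
        rw [e1]
        exact Ideal.add_mem _ hf hg
      | mul_X f i hf =>
        have e1 : f * X i - C (eval P (f * X i)) = (f - C (eval P f)) * X i +
            C (eval P f) * (X i - C (P i)) := by
          rw [map_mul, eval_X, C_mul]
          ring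
        rw [e1]
        exact Ideal.add_mem _ (Ideal.mul_mem_right _ _ hf)
          (Ideal.mul_mem_left _ _ (Ideal.subset_span ⟨i, rfl⟩))
    have h1 := key f
    rwa [mem_mI.1 hf, C_0, sub_zero] at h1
  · rw [Ideal.span_le]
    rintro _ ⟨i, rfl⟩
    rw [SetLike.mem_coe, mem_mI]
    simp

theorem map_bind (H : σ → MvPolynomial σ L) (z : σ → L) (G : σ → MvPolynomial σ L) :
    (sys G (fun i => eval z (H i))).map
      ((bind₁ H : MvPolynomial σ L →ₐ[L] MvPolynomial σ L) : MvPolynomial σ L →+* MvPolynomial σ L) =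
      sys (fun i => bind₁ H (G i)) z := by
  unfold sys
  rw [Ideal.map_span, ← Set.range_comp]
  congr 2
  funext i
  have h : eval z (bind₁ H (G i)) = eval (fun i => eval z (H i)) (G i) := by
    rw [eval, eval₂Hom_bind₁]
    rfl
  change bind₁ H (G i - C (eval (fun i => eval z (H i)) (G i))) = _
  rw [map_sub, h, bind₁_C_right]

theorem sys_X (z : σ → L) : sys X z = mI z := by
  rw [mI_eq]
  unfold sys
  simp only [eval_X]

theorem map_mI (H : σ → MvPolynomial σ L) (z : σ → L) : (mI (fun i => eval z (H i))).map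
      ((bind₁ H : MvPolynomial σ L →ₐ[L] MvPolynomial σ L) : MvPolynomial σ L →+* MvPolynomial σ L) =
      sys H z := by
  rw [← sys_X, map_bind]
  simp only [bind₁_X_right]

/-- first step of the composition: expansion over the subring -/
theorem expand {P P' : σ → L} {θ : MvPolynomial σ L →ₐ[L] MvPolynomial σ L}
    {ι : Type} [Fintype ι] {e : ι → MvPolynomial σ L} {s : ℕ}
    (he : ∀ f, ∃ c : ι → L, f - ∑ a, C (c a) * e a ∈
      (mI P').map (θ : MvPolynomial σ L →+* MvPolynomial σ L) ⊔ mI P ^ s)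
    (t : ℕ) (f : MvPolynomial σ L) :
    ∃ c : ι → MvPolynomial σ L, f - ∑ a, e a * θ (c a) ∈
      (mI P' ^ t).map (θ : MvPolynomial σ L →+* MvPolynomial σ L) ⊔ mI P ^ s := by
  induction t generalizing f with
  | zero =>
    refine ⟨0, ?_⟩
    rw [pow_zero, Ideal.one_eq_top, Ideal.map_top, top_sup_eq]
    trivial
  | succ t ih =>
    have key : ∀ u ∈ (mI P' ^ t).map (θ : MvPolynomial σ L →+* MvPolynomial σ L),
        ∃ c : ι → MvPolynomial σ L, (∀ a, c a ∈ mI P' ^ t) ∧ u - ∑ a, e a * θ (c a) ∈
          (mI P' ^ (t + 1)).map (θ : MvPolynomial σ L →+* MvPolynomial σ L) ⊔ mI P ^ s := by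
      have hmul : ∀ (r μ : MvPolynomial σ L), μ ∈ mI P' ^ t →
          ∃ c : ι → MvPolynomial σ L, (∀ a, c a ∈ mI P' ^ t) ∧ r * θ μ - ∑ a, e a * θ (c a) ∈
            (mI P' ^ (t + 1)).map (θ : MvPolynomial σ L →+* MvPolynomial σ L) ⊔ mI P ^ s := by
        intro r μ hμ
        obtain ⟨c, hc⟩ := he r
        refine ⟨fun a => C (c a) * μ, fun a => Ideal.mul_mem_left _ _ hμ, ?_⟩
        have e1 : r * θ μ - ∑ a, e a * θ (C (c a) * μ) = (r - ∑ a, C (c a) * e a) * θ μ := by
          rw [sub_mul, Finset.sum_mul]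
          congr 1
          refine Finset.sum_congr rfl fun a _ => ?_
          rw [map_mul]
          have : θ (C (c a)) = C (c a) := by
            rw [← MvPolynomial.algebraMap_eq]
            exact θ.commutes _
          rw [this]
          ring
        rw [e1]
        obtain ⟨x, hx, y, hy, hxy⟩ := Submodule.mem_sup.1 hc
        rw [← hxy, add_mul]
        refine Ideal.add_mem _ (Ideal.mem_sup_left ?_)
          (Ideal.mem_sup_right (Ideal.mul_mem_right _ _ hy))
        rw [pow_succ', Ideal.map_mul]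
        exact Ideal.mul_mem_mul hx (Ideal.mem_map_of_mem _ hμ)
      intro u hu
      rw [Ideal.map] at hu
      refine Submodule.span_induction (p := fun u _ => ∃ c : ι → MvPolynomial σ L,
        (∀ a, c a ∈ mI P' ^ t) ∧ u - ∑ a, e a * θ (c a) ∈
          (mI P' ^ (t + 1)).map (θ : MvPolynomial σ L →+* MvPolynomial σ L) ⊔ mI P ^ s)
        ?_ ?_ ?_ ?_ hu
      · rintro _ ⟨μ, hμ, rfl⟩
        obtain ⟨c, hc, h⟩ := hmul 1 μ hμ
        rw [one_mul] at h
        exact ⟨c, hc, h⟩
      · exact ⟨0, fun a => zero_mem _, by simp⟩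
      · rintro x y - - ⟨c, hc, h⟩ ⟨c', hc', h'⟩
        refine ⟨c + c', fun a => add_mem (hc a) (hc' a), ?_⟩
        have e1 : x + y - ∑ a, e a * θ ((c + c') a) =
            (x - ∑ a, e a * θ (c a)) + (y - ∑ a, e a * θ (c' a)) := by
          simp only [Pi.add_apply, map_add, mul_add, Finset.sum_add_distrib]
          ring
        rw [e1]
        exact Ideal.add_mem _ h h'
      · rintro r x - ⟨c, hc, h⟩
        choose c' hc' h' using fun a => hmul (r * e a) (c a) (hc a)
        refine ⟨fun b => ∑ a, c' a b, fun b => Ideal.sum_mem _ fun a _ => hc' a b, ?_⟩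
        have e1 : r • x - ∑ b, e b * θ (∑ a, c' a b) =
            r * (x - ∑ a, e a * θ (c a)) +
              ∑ a, (r * e a * θ (c a) - ∑ b, e b * θ (c' a b)) := by
          rw [smul_eq_mul, mul_sub, Finset.mul_sum, Finset.sum_sub_distrib, Finset.sum_comm]
          simp only [map_sum, Finset.mul_sum, mul_assoc]
          ring
        rw [e1]
        exact Ideal.add_mem _ (Ideal.mul_mem_left _ _ h) (Ideal.sum_mem _ fun a _ => h' a)
    obtain ⟨c, hc⟩ := ih f
    obtain ⟨x, hx, y, hy, hxy⟩ := Submodule.mem_sup.1 hc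
    obtain ⟨c', -, h'⟩ := key x hx
    refine ⟨c + c', ?_⟩
    have e1 : f - ∑ a, e a * θ ((c + c') a) = (x - ∑ a, e a * θ (c' a)) + y := by
      simp only [Pi.add_apply, map_add, mul_add, Finset.sum_add_distrib]
      linear_combination -hxy
    rw [e1]
    exact Ideal.add_mem _ h' (Ideal.mem_sup_right hy)

/-- composition -/
theorem sp_comp {P P' : σ → L} {θ : MvPolynomial σ L →ₐ[L] MvPolynomial σ L}
    (hθ : ∀ f, eval P (θ f) = eval P' f) {s n n' : ℕ} {I : Ideal (MvPolynomial σ L)}
    (h : Sp ((mI P').map (θ : MvPolynomial σ L →+* MvPolynomial σ L) ⊔ mI P ^ s) n)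
    (h' : Sp (I ⊔ mI P' ^ s) n') :
    Sp (I.map (θ : MvPolynomial σ L →+* MvPolynomial σ L) ⊔ mI P ^ s) (n * n') := by
  have hle : (mI P').map (θ : MvPolynomial σ L →+* MvPolynomial σ L) ≤ mI P := by
    rw [Ideal.map_le_iff_le_comap]
    intro f hf
    rw [Ideal.mem_comap, mem_mI]
    exact (hθ f).trans (mem_mI.1 hf)
  have hpow : (mI P' ^ s).map (θ : MvPolynomial σ L →+* MvPolynomial σ L) ≤ mI P ^ s := by
    rw [Ideal.map_pow]
    exact Ideal.pow_right_mono hle s
  obtain ⟨ι, hι, e, hc, he⟩ := h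
  obtain ⟨κ, hκ, g, hc', hg⟩ := h'
  refine ⟨ι × κ, inferInstance, fun ab => e ab.1 * θ (g ab.2), ?_, fun f => ?_⟩
  · rw [Fintype.card_prod]
    exact Nat.mul_le_mul hc hc'
  · obtain ⟨c, hcc⟩ := expand he s f
    choose b hb using fun a => hg (c a)
    refine ⟨fun ab => b ab.1 ab.2, ?_⟩
    have e1 : f - ∑ ab : ι × κ, C (b ab.1 ab.2) * (e ab.1 * θ (g ab.2)) =
        (f - ∑ a, e a * θ (c a)) + ∑ a, e a * θ (c a - ∑ k, C (b a k) * g k) := by
      rw [Fintype.sum_prod_type]
      have : ∀ a, e a * θ (c a - ∑ k, C (b a k) * g k) =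
          e a * θ (c a) - ∑ k, C (b a k) * (e a * θ (g k)) := by
        intro a
        rw [map_sub, mul_sub, map_sum, Finset.mul_sum]
        congr 1
        refine Finset.sum_congr rfl fun k _ => ?_
        rw [map_mul]
        have : θ (C (b a k)) = C (b a k) := by
          rw [← MvPolynomial.algebraMap_eq]
          exact θ.commutes _
        rw [this]
        ring
      simp only [this, Finset.sum_sub_distrib]
      ring
    rw [e1]
    refine Ideal.add_mem _ (sup_le (hpow.trans le_sup_right) le_sup_right hcc)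
      (Ideal.sum_mem _ fun a _ => Ideal.mul_mem_left _ _ ?_)
    obtain ⟨x, hx, y, hy, hxy⟩ := Submodule.mem_sup.1 (hb a)
    rw [← hxy, map_add]
    exact Ideal.add_mem _ (Ideal.mem_sup_left (Ideal.mem_map_of_mem _ hx))
      (Ideal.mem_sup_right (hpow (Ideal.mem_map_of_mem _ hy)))

theorem LM.comp {G H : σ → MvPolynomial σ L} {z : σ → L} {s a b : ℕ} (hH : LM H z s a)
    (hG : LM G (fun i => eval z (H i)) s b) : LM (fun i => bind₁ H (G i)) z s (a * b) := by
  unfold LM at *
  rw [← map_bind]
  refine sp_comp (P' := fun i => eval z (H i)) (fun f => ?_) ?_ hG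
  · rw [eval, eval₂Hom_bind₁]
    rfl
  · rw [map_mI]
    exact hH

theorem LM.one_of_le {G : σ → MvPolynomial σ L} {z : σ → L} (h : mI z ≤ sys G z) (s : ℕ) :
    LM G z s 1 :=
  (sp_one z).mono (h.trans le_sup_left) le_rfl

theorem LM.scale {n : ℕ} [CharZero L] {G : Fin n → MvPolynomial (Fin n) L} {D : ℕ}
    (hG : ∀ i, (G i).IsHomogeneous D) {t : L} (ht : t ≠ 0) {z : Fin n → L} {s m : ℕ}
    (h : LM G (fun i => t * z i) s m) : LM G z s m := by
  have h1 : LM (fun i => C t * X i : Fin n → MvPolynomial (Fin n) L) z s 1 := by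
    refine LM.one_of_le ?_ s
    rw [mI_eq, Ideal.span_le]
    rintro _ ⟨i, rfl⟩
    have e1 : (X i - C (z i) : MvPolynomial (Fin n) L) =
        C t⁻¹ * (C t * X i - C (eval z (C t * X i))) := by
      rw [map_mul, eval_C, eval_X, C_mul, mul_sub, ← mul_assoc, ← mul_assoc, ← C_mul,
        inv_mul_cancel₀ ht, C_1, one_mul, one_mul]
    change X i - C (z i) ∈ sys _ z
    rw [e1]
    exact Ideal.mul_mem_left _ _ (Ideal.subset_span ⟨i, rfl⟩)
  have h2 : LM (fun i => bind₁ (fun i => C t * X i) (G i)) z s (1 * m) := by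
    refine h1.comp ?_
    have e1 : (fun i => eval z (C t * X i)) = fun i => t * z i := by
      funext i
      simp
    rw [e1]
    exact h
  rw [one_mul] at h2
  have h3 : ∀ i, bind₁ (fun i => C t * X i) (G i) = C (t ^ D) * G i := by
    intro i
    apply MvPolynomial.funext
    intro x
    rw [map_mul, eval_C, ← eval_smul_hom (hG i), eval, eval₂Hom_bind₁]
    congr 2
    funext j
    simp
  simp only [h3] at h2
  unfold LM at h2 ⊢
  convert h2 using 2
  unfold sys
  apply le_antisymm
  · rw [Ideal.span_le]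
    rintro _ ⟨i, rfl⟩
    have e1 : G i - C (eval z (G i)) =
        C (t ^ D)⁻¹ * (C (t ^ D) * G i - C (eval z (C (t ^ D) * G i))) := by
      rw [map_mul, eval_C, C_mul, mul_sub, ← mul_assoc, ← mul_assoc, ← C_mul,
        inv_mul_cancel₀ (pow_ne_zero _ ht), C_1, one_mul, one_mul]
    change G i - C (eval z (G i)) ∈ Ideal.span _
    rw [e1]
    exact Ideal.mul_mem_left _ _ (Ideal.subset_span ⟨i, rfl⟩)
  · rw [Ideal.span_le]
    rintro _ ⟨i, rfl⟩
    have e1 : C (t ^ D) * G i - C (eval z (C (t ^ D) * G i)) = C (t ^ D) * (G i - C (eval z (G i))) := by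
      rw [map_mul, eval_C, C_mul]
      ring
    change C (t ^ D) * G i - C (eval z (C (t ^ D) * G i)) ∈ Ideal.span _
    rw [e1]
    exact Ideal.mul_mem_left _ _ (Ideal.subset_span ⟨i, rfl⟩)

/-- a chain of `m + 1` ideals in a ring of dimension at most `m` -/
theorem pow_le {J : Ideal (MvPolynomial σ L)} {z : σ → L} {m : ℕ} (h : Sp J m)
    (hJ : mI z ^ (m + 1) ≤ J) : mI z ^ m ≤ J := by
  obtain ⟨h1, h2⟩ := h.finite
  let V : ℕ → Ideal (MvPolynomial σ L ⧸ J) := fun t => (mI z ^ t).map (Ideal.Quotient.mk J)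
  have hV : ∀ t, V (t + 1) = (mI z).map (Ideal.Quotient.mk J) * V t := by
    intro t
    change (mI z ^ (t + 1)).map (Ideal.Quotient.mk J) = _
    rw [pow_succ', Ideal.map_mul]
  by_contra hcon
  have hbot : ∀ t, V t = ⊥ → mI z ^ t ≤ J := by
    intro t ht
    have h3 := (Ideal.map_eq_bot_iff_le_ker (Ideal.Quotient.mk J)).1 ht
    rwa [Ideal.mk_ker] at h3
  have htop : V (m + 1) = ⊥ := by
    refine (Ideal.map_eq_bot_iff_le_ker (Ideal.Quotient.mk J)).2 ?_
    rw [Ideal.mk_ker]
    exact hJ
  have hstrict : ∀ t ≤ m, V (t + 1) < V t := by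
    intro t ht
    refine lt_of_le_of_ne ?_ ?_
    · rw [hV t]
      exact Ideal.mul_le_right
    · intro heq
      have h3 : ∀ j, V (t + j) = V t := by
        intro j
        induction j with
        | zero => rfl
        | succ j ih => rw [← add_assoc, hV, ih, ← hV, heq]
      apply hcon
      apply hbot
      have h4 := h3 (m - t)
      have h5 := h3 (m + 1 - t)
      rw [show t + (m - t) = m by omega] at h4
      rw [show t + (m + 1 - t) = m + 1 by omega] at h5
      rw [h4, ← h5, htop]
  have hfin : ∀ t ≤ m + 1, Module.finrank L ((V t).restrictScalars L) + t ≤ m := by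
    intro t
    induction t with
    | zero =>
      intro _
      rw [add_zero]
      exact (Submodule.finrank_le _).trans h2
    | succ t ih =>
      intro ht
      have h3 := ih (by omega)
      have h4 : (V (t + 1)).restrictScalars L < (V t).restrictScalars L := hstrict t (by omega)
      have h5 := Submodule.finrank_lt_finrank_of_lt h4
      omega
  have := hfin (m + 1) le_rfl
  omega

theorem pow_le' {I : Ideal (MvPolynomial σ L)} {z : σ → L} {s m : ℕ} (h : Sp (I ⊔ mI z ^ s) m)
    (hm : m < s) : mI z ^ m ≤ I ⊔ mI z ^ (m + 1) := by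
  refine pow_le ?_ le_sup_right
  refine h.mono (sup_le_sup_left ?_ _) le_rfl
  exact Ideal.pow_le_pow_right hm

/-- the truncation plays no role -/
theorem sp_stab {I : Ideal (MvPolynomial σ L)} {z : σ → L} {s m : ℕ} (h : Sp (I ⊔ mI z ^ s) m)
    (hm : m < s) (t : ℕ) : Sp (I ⊔ mI z ^ t) m := by
  have h1 := pow_le' h hm
  have h2 : ∀ j, mI z ^ m ≤ I ⊔ mI z ^ (m + j) := by
    intro j
    induction j with
    | zero => exact le_sup_right
    | succ j ih =>
      refine ih.trans (sup_le le_sup_left ?_)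
      rw [pow_add, mul_comm]
      refine (Ideal.mul_mono_right h1).trans ?_
      rw [Ideal.mul_sup]
      refine sup_le (Ideal.mul_le_right.trans le_sup_left) ?_
      rw [← pow_add, show j + (m + 1) = m + (j + 1) by omega]
      exact le_sup_right
  refine h.mono (sup_le le_sup_left ?_) le_rfl
  refine (Ideal.pow_le_pow_right hm.le).trans ((h2 t).trans (sup_le_sup_left ?_ _))
  exact Ideal.pow_le_pow_right (by omega)

theorem LM.stab {G : σ → MvPolynomial σ L} {z : σ → L} {s m : ℕ} (h : LM G z s m) (hm : m < s)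
    (t : ℕ) : LM G z t m :=
  sp_stab h hm t

/-- the dimension of the local algebra -/
theorem mult_le {σ : Type} [Finite σ] {I : Ideal (MvPolynomial σ L)} {z : σ → L} {s m : ℕ}
    (h : Sp (I ⊔ mI z ^ s) m) (hm : m < s) : mult z I ≤ (m : Cardinal) := by
  have h1 := pow_le' h hm
  set R := Localization.AtPrime (mI z) with hR
  set alg := algebraMap (MvPolynomial σ L) R with halg
  have hN : (mI z ^ m).map alg ≤ I.map alg := by
    refine Submodule.le_of_le_smul_of_le_jacobson_bot (I := (mI z).map alg) ?_ ?_ ?_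
    · exact Ideal.FG.map (IsNoetherian.noetherian (mI z ^ m)) alg
    · rw [halg, Localization.AtPrime.map_eq_maximalIdeal]
      exact IsLocalRing.maximalIdeal_le_jacobson _
    · refine (Ideal.map_mono h1).trans ?_
      rw [Ideal.map_sup, pow_succ', Ideal.map_mul]
      exact le_rfl
  obtain ⟨ι, hι, e, hc, he⟩ := h
  let g : (ι → L) →ₗ[L] (R ⧸ I.map alg) :=
    Fintype.linearCombination L (fun a => Ideal.Quotient.mk _ (alg (e a)))
  have hg : Function.Surjective g := by
    intro x
    obtain ⟨y, rfl⟩ := Ideal.Quotient.mk_surjective x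
    obtain ⟨f, w, rfl⟩ := IsLocalization.exists_mk'_eq (mI z).primeCompl y
    obtain ⟨u, hu⟩ := (isUnit_mk (le_refl (mI z ^ m)) w.2).exists_right_inv
    obtain ⟨v, rfl⟩ := Ideal.Quotient.mk_surjective u
    rw [← map_mul, ← map_one (Ideal.Quotient.mk (mI z ^ m)), Ideal.Quotient.eq] at hu
    obtain ⟨c, hc⟩ := he (f * v)
    refine ⟨c, ?_⟩
    have h2 : IsLocalization.mk' R f w * alg (w * v) = alg (f * v) := by
      rw [map_mul, ← mul_assoc, IsLocalization.mk'_spec, ← map_mul]
    have h3 : alg (w * v - 1) ∈ I.map alg := hN (Ideal.mem_map_of_mem _ hu)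
    have h4 : alg (f * v - ∑ a, C (c a) * e a) ∈ I.map alg := by
      have h5 : I ⊔ mI z ^ s ≤ I ⊔ mI z ^ m := sup_le_sup_left (Ideal.pow_le_pow_right hm.le) _
      have h6 : (I ⊔ mI z ^ m).map alg ≤ I.map alg := by
        rw [Ideal.map_sup]
        exact sup_le le_rfl hN
      exact h6 (Ideal.mem_map_of_mem _ (h5 hc))
    have h5 : Ideal.Quotient.mk (I.map alg) (alg (w * v)) = 1 := by
      rw [map_sub, map_one] at h3
      exact (Ideal.Quotient.eq.2 h3)
    rw [map_sub, ← Ideal.Quotient.eq] at h4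
    have h6 : Ideal.Quotient.mk (I.map alg) (IsLocalization.mk' R f w) =
        Ideal.Quotient.mk (I.map alg) (alg (f * v)) := by
      rw [← h2, map_mul, h5, mul_one]
    rw [h6, h4]
    simp only [g, Fintype.linearCombination_apply, map_sum]
    refine Finset.sum_congr rfl fun a _ => ?_
    rw [map_mul, map_mul]
    have h7 : alg (C (c a)) = algebraMap L R (c a) := by
      rw [← MvPolynomial.algebraMap_eq, halg, ← IsScalarTower.algebraMap_apply]
    have h8 : c a • (Ideal.Quotient.mk (I.map alg)) (alg (e a)) =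
        Ideal.Quotient.mk (I.map alg) (c a • alg (e a)) := rfl
    rw [h7, h8, Algebra.smul_def, map_mul]
  have h2 := LinearMap.rank_le_of_surjective g hg
  refine h2.trans ?_
  rw [rank_fun']
  exact_mod_cast hc

end Pool.Agent.Helper61.DG
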