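import Mathlib
import Pool.Agent.Helper61.DG.Mult

/-!
# Generic maps: the example

`F_j = (x_0 - c x_(j+1))^d` for `j < n`, `F_n = x_0^d` on the affine space of dimension `n + 1`, where
`1 - c` is a root of unity of order dividing `d`, different from `1`. The multiplicities of all
iterates are bounded by one constant.
-/

set_option autoImplicit false

namespace Pool.Agent.Helper61.DG

open MvPolynomial
open Pool.Agent.Helper52.RP (mI mem_mI Sp mult sp_one isUnit_mk)

section iter

variable {R : Type*} [CommRing R] {σ : Type*}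

/-- iterates of a polynomial map -/
noncomputable def itr (F : σ → MvPolynomial σ R) (t : ℕ) (i : σ) : MvPolynomial σ R :=
  (bind₁ F)^[t] (X i)

theorem itr_succ (F : σ → MvPolynomial σ R) (t : ℕ) (i : σ) :
    itr F (t + 1) i = bind₁ F (itr F t i) := by
  unfold itr
  rw [Function.iterate_succ_apply']

theorem iter_eq (F : σ → MvPolynomial σ R) (t : ℕ) (f : MvPolynomial σ R) :
    (bind₁ F)^[t] f = bind₁ (itr F t) f := by
  induction t with
  | zero =>
    have : (itr F 0) = X := by
      funext i
      rfl
    rw [this]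
    simp
  | succ t ih =>
    rw [Function.iterate_succ_apply', ih, bind₁_bind₁]
    have : (fun i => (bind₁ F) (itr F t i)) = itr F (t + 1) := by
      funext i
      exact (itr_succ F t i).symm
    rw [this]

theorem itr_add (F : σ → MvPolynomial σ R) (s t : ℕ) (i : σ) :
    itr F (s + t) i = bind₁ (itr F s) (itr F t i) := by
  rw [← iter_eq]
  unfold itr
  rw [Function.iterate_add_apply]

end iter

section power

variable {k : Type*} [Field k] {n : ℕ}

open Classical in
/-- the number of zero coordinates -/
noncomputable def nz (y : Fin n → k) : ℕ := (Finset.univ.filter fun j => y j = 0).card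

open Classical in
/-- multiplicities of the power map -/
theorem LM_pow {d : ℕ} (hd : (d : k) ≠ 0) (u : Fin n → k) (s : ℕ) :
    LM (fun i => (X i : MvPolynomial (Fin n) k) ^ d) u s (d ^ nz u) := by
  have hd0 : 0 < d := by
    rcases Nat.eq_zero_or_pos d with h | h
    · rw [h, Nat.cast_zero] at hd
      exact absurd rfl hd
    · exact h
  set J : Ideal (MvPolynomial (Fin n) k) :=
    sys (fun i => (X i : MvPolynomial (Fin n) k) ^ d) u ⊔ mI u ^ s with hJ
  have hJs : mI u ^ s ≤ J := le_sup_right
  have hgen : ∀ i, (X i : MvPolynomial (Fin n) k) ^ d - C (u i ^ d) ∈ J := by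
    intro i
    refine Ideal.mem_sup_left (Ideal.subset_span ⟨i, ?_⟩)
    simp
  have hne : ∀ i, u i ≠ 0 → (X i : MvPolynomial (Fin n) k) - C (u i) ∈ J := by
    intro i hi
    have h1 := hgen i
    rw [C_pow, ← geom_sum₂_mul, ← Ideal.Quotient.eq_zero_iff_mem, map_mul] at h1
    have h2 : (∑ j ∈ Finset.range d, (X i : MvPolynomial (Fin n) k) ^ j * C (u i) ^ (d - 1 - j)) ∉
        mI u := by
      rw [mem_mI, map_sum]
      have h3 : ∀ j ∈ Finset.range d,
          eval u ((X i : MvPolynomial (Fin n) k) ^ j * C (u i) ^ (d - 1 - j)) = u i ^ (d - 1) := by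
        intro j hj
        rw [Finset.mem_range] at hj
        rw [map_mul, map_pow, map_pow, eval_X, eval_C, ← pow_add]
        congr 1
        omega
      rw [Finset.sum_congr rfl h3, Finset.sum_const, Finset.card_range, nsmul_eq_mul]
      exact mul_ne_zero hd (pow_ne_zero _ hi)
    rw [← Ideal.Quotient.eq_zero_iff_mem]
    exact ((isUnit_mk hJs h2).mul_right_eq_zero).1 h1
  let Z := {j : Fin n // u j = 0}
  let e : (Z → Fin d) → MvPolynomial (Fin n) k := fun a => ∏ j : Z, X j.1 ^ (a j : ℕ)
  let W : Submodule k (MvPolynomial (Fin n) k) := Submodule.span k (Set.range e) ⊔ J.restrictScalars k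
  have hWJ : ∀ f ∈ J, f ∈ W := fun f hf => Submodule.mem_sup_right hf
  have hWe : ∀ a, e a ∈ W := fun a => Submodule.mem_sup_left (Submodule.subset_span ⟨a, rfl⟩)
  have hmul : ∀ i, ∀ f ∈ W, f * X i ∈ W := by
    intro i f hf
    obtain ⟨x, hx, y, hy, rfl⟩ := Submodule.mem_sup.1 hf
    rw [add_mul]
    refine W.add_mem ?_ (hWJ _ (Ideal.mul_mem_right _ _ hy))
    clear hf hy
    refine Submodule.span_induction (p := fun x _ => x * X i ∈ W) ?_ ?_ ?_ ?_ hx
    · rintro _ ⟨a, rfl⟩
      by_cases hi : u i = 0
      · have e1 : e a * X i = X i ^ ((a ⟨i, hi⟩ : ℕ) + 1) *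
            ∏ j ∈ Finset.univ.erase (⟨i, hi⟩ : Z), X j.1 ^ (a j : ℕ) := by
          change (∏ j : Z, X j.1 ^ (a j : ℕ)) * X i = _
          rw [← Finset.mul_prod_erase Finset.univ _ (Finset.mem_univ (⟨i, hi⟩ : Z)), pow_succ]
          ring
        by_cases ha : (a ⟨i, hi⟩ : ℕ) + 1 < d
        · have e2 : e a * X i = e (Function.update a ⟨i, hi⟩ ⟨(a ⟨i, hi⟩ : ℕ) + 1, ha⟩) := by
            rw [e1]
            change _ = ∏ j : Z, X j.1 ^ ((Function.update a ⟨i, hi⟩ ⟨(a ⟨i, hi⟩ : ℕ) + 1, ha⟩) j : ℕ)
            rw [← Finset.mul_prod_erase Finset.univ _ (Finset.mem_univ (⟨i, hi⟩ : Z)),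
              Function.update_self]
            congr 1
            refine Finset.prod_congr rfl fun j hj => ?_
            rw [Function.update_of_ne (Finset.ne_of_mem_erase hj)]
          rw [e2]
          exact hWe _
        · have h1 : (a ⟨i, hi⟩ : ℕ) + 1 = d := by
            have := (a ⟨i, hi⟩).2
            omega
          rw [e1, h1]
          refine hWJ _ (Ideal.mul_mem_right _ _ ?_)
          have h2 := hgen i
          rwa [hi, zero_pow hd0.ne', C_0, sub_zero] at h2
      · have e1 : e a * X i = u i • e a + e a * (X i - C (u i)) := by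
          rw [smul_eq_C_mul]
          ring
        rw [e1]
        exact W.add_mem (W.smul_mem _ (hWe a)) (hWJ _ (Ideal.mul_mem_left _ _ (hne i hi)))
    · rw [zero_mul]
      exact W.zero_mem
    · intro x y _ _ hx hy
      rw [add_mul]
      exact W.add_mem hx hy
    · intro r x _ hx
      rw [smul_mul_assoc]
      exact W.smul_mem _ hx
  have htop : ∀ f, f ∈ W := by
    intro f
    induction f using MvPolynomial.induction_on with
    | C a =>
      have h1 : e (fun _ => ⟨0, hd0⟩) = 1 := by
        change ∏ j : Z, X j.1 ^ 0 = (1 : MvPolynomial (Fin n) k)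
        simp
      have h2 : (C a : MvPolynomial (Fin n) k) = a • e (fun _ => ⟨0, hd0⟩) := by
        rw [h1, smul_eq_C_mul, mul_one]
      rw [h2]
      exact W.smul_mem _ (hWe _)
    | add f g hf hg => exact W.add_mem hf hg
    | mul_X f i hf => exact hmul i f hf
  refine ⟨Z → Fin d, inferInstance, e, ?_, fun f => ?_⟩
  · rw [Fintype.card_fun, Fintype.card_fin]
    apply le_of_eq
    congr 1
    rw [Fintype.card_subtype]
    rfl
  · obtain ⟨x, hx, y, hy, hxy⟩ := Submodule.mem_sup.1 (htop f)
    obtain ⟨c, hc⟩ := (Submodule.mem_span_range_iff_exists_fun k).1 hx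
    refine ⟨c, ?_⟩
    have e1 : f - ∑ a, C (c a) * e a = y := by
      rw [← hxy, ← hc]
      simp only [smul_eq_C_mul]
      ring
    rw [e1]
    exact hy

end power

section example_

variable {k : Type*} [Field k] {n : ℕ}

/-- the linear part of the example -/
noncomputable def lin (c : k) : Fin (n + 1) → MvPolynomial (Fin (n + 1)) k :=
  Fin.lastCases (X 0) fun i => X 0 - C c * X i.succ

/-- the example -/
noncomputable def exF (c : k) (d : ℕ) (i : Fin (n + 1)) : MvPolynomial (Fin (n + 1)) k := lin c i ^ d

/-- the map of the example -/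
noncomputable def st (c : k) (d : ℕ) (y : Fin (n + 1) → k) (i : Fin (n + 1)) : k := eval y (exF c d i)

theorem st_last (c : k) (d : ℕ) (y : Fin (n + 1) → k) : st c d y (Fin.last n) = y 0 ^ d := by
  unfold st exF lin
  rw [Fin.lastCases_last, map_pow, eval_X]

theorem st_cast (c : k) (d : ℕ) (y : Fin (n + 1) → k) (i : Fin n) :
    st c d y i.castSucc = (y 0 - c * y i.succ) ^ d := by
  unfold st exF lin
  rw [Fin.lastCases_castSucc]
  simp

theorem LM_lin {c : k} (hc : c ≠ 0) (y : Fin (n + 1) → k) (s : ℕ) : LM (lin c) y s 1 := by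
  refine LM.one_of_le ?_ s
  have h0 : (X 0 - C (y 0) : MvPolynomial (Fin (n + 1)) k) ∈ sys (lin c) y := by
    refine Ideal.subset_span ⟨Fin.last n, ?_⟩
    simp [lin]
  rw [mI_eq, Ideal.span_le]
  rintro _ ⟨j, rfl⟩
  refine Fin.cases ?_ (fun i => ?_) j
  · exact h0
  · have h1 : (X 0 - C c * X i.succ - C (y 0 - c * y i.succ) : MvPolynomial (Fin (n + 1)) k) ∈
        sys (lin c) y := by
      refine Ideal.subset_span ⟨i.castSucc, ?_⟩
      simp [lin]
    have e1 : (X i.succ - C (y i.succ) : MvPolynomial (Fin (n + 1)) k) =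
        C c⁻¹ * ((X 0 - C (y 0)) - (X 0 - C c * X i.succ - C (y 0 - c * y i.succ))) := by
      rw [C_sub, C_mul]
      have h2 : (C c⁻¹ * C c : MvPolynomial (Fin (n + 1)) k) = 1 := by
        rw [← C_mul, inv_mul_cancel₀ hc, C_1]
      linear_combination (X i.succ - C (y i.succ)) * (-h2)
    change X i.succ - C (y i.succ) ∈ sys (lin c) y
    rw [e1]
    exact Ideal.mul_mem_left _ _ (Ideal.sub_mem _ h0 h1)

theorem LM_exF {c : k} (hc : c ≠ 0) {d : ℕ} (hd : (d : k) ≠ 0) (y : Fin (n + 1) → k) (s : ℕ) :
    LM (exF c d) y s (d ^ nz (st c d y)) := by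
  have hd0 : d ≠ 0 := by
    rintro rfl
    exact hd Nat.cast_zero
  have h1 := (LM_lin hc y s).comp (LM_pow hd (fun i => eval y (lin c i)) s)
  rw [one_mul] at h1
  have e1 : (fun i => bind₁ (lin c) ((X i : MvPolynomial (Fin (n + 1)) k) ^ d)) = exF c d := by
    funext i
    rw [map_pow, bind₁_X_right]
    rfl
  have e2 : nz (fun i => eval y (lin c i)) = nz (st c d y) := by
    unfold nz st exF
    congr 1
    ext j
    simp only [Finset.mem_filter, Finset.mem_univ, true_and, map_pow]
    exact (pow_eq_zero_iff hd0).symm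
  rw [e1, e2] at h1
  exact h1

open Classical in
/-- the nonzero values of the coordinates -/
noncomputable def vs (y : Fin (n + 1) → k) : Finset k := (Finset.univ.image y).erase 0

open Classical in
theorem mem_vs {y : Fin (n + 1) → k} {v : k} : v ∈ vs y ↔ v ≠ 0 ∧ ∃ j, y j = v := by
  unfold vs
  simp

open Classical in
theorem card_vs (y : Fin (n + 1) → k) : (vs y).card ≤ n + 1 := by
  unfold vs
  refine (Finset.card_erase_le).trans ?_
  refine Finset.card_image_le.trans ?_
  simp

open Classical in
theorem pot_step {c : k} {d : ℕ} (hd : d ≠ 0) (hc0 : c ≠ 0) (hc1 : c ≠ 1) (hc : (1 - c) ^ d = 1)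
    {y : Fin (n + 1) → k} {q : Fin (n + 1)} (hq : y q ≠ 0) :
    ∃ q' : Fin (n + 1), st c d y q' ≠ 0 ∧
      nz (st c d y) + ((q' : ℕ) * (n + 1) + (vs (st c d y)).card * (n + 1) ^ 2) ≤
        (q : ℕ) * (n + 1) + (vs y).card * (n + 1) ^ 2 := by
  by_cases h0 : y 0 = 0
  · -- the first coordinate is zero: shift
    obtain ⟨i, rfl⟩ : ∃ i : Fin n, q = i.succ := by
      refine ⟨q.pred ?_, ?_⟩
      · rintro rfl
        exact hq h0
      · simp
    refine ⟨i.castSucc, ?_, ?_⟩
    · rw [st_cast, h0, zero_sub]
      exact pow_ne_zero _ (neg_ne_zero.2 (mul_ne_zero hc0 hq))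
    · have h1 : (vs (st c d y)).card ≤ (vs y).card := by
        have hsub : vs (st c d y) ⊆ (vs y).image (fun v => (-(c * v)) ^ d) := by
          intro v hv
          obtain ⟨hv0, j, rfl⟩ := mem_vs.1 hv
          rw [Finset.mem_image]
          revert hv0
          refine Fin.lastCases ?_ (fun i => ?_) j
          · intro hv0
            rw [st_last, h0, zero_pow hd] at hv0
            exact absurd rfl hv0
          · intro hv0
            rw [st_cast, h0, zero_sub] at hv0 ⊢
            refine ⟨y i.succ, mem_vs.2 ⟨?_, _, rfl⟩, rfl⟩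
            intro h
            rw [h, mul_zero, neg_zero, zero_pow hd] at hv0
            exact hv0 rfl
        exact (Finset.card_le_card hsub).trans Finset.card_image_le
      have h2 : nz (st c d y) ≤ n + 1 := by
        unfold nz
        exact (Finset.card_filter_le _ _).trans (by simp)
      have h3 : (vs (st c d y)).card * (n + 1) ^ 2 ≤ (vs y).card * (n + 1) ^ 2 :=
        Nat.mul_le_mul_right _ h1
      rw [Fin.val_castSucc, Fin.val_succ]
      nlinarith
  · -- the first coordinate is not zero
    have hlast : st c d y (Fin.last n) ≠ 0 := by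
      rw [st_last]
      exact pow_ne_zero _ h0
    have hy0 : y 0 ∈ vs y := mem_vs.2 ⟨h0, 0, rfl⟩
    have hval : ∀ i : Fin n, y i.succ = 0 ∨ y i.succ = y 0 → st c d y i.castSucc = y 0 ^ d := by
      intro i hi
      rw [st_cast]
      rcases hi with hi | hi
      · rw [hi, mul_zero, sub_zero]
      · rw [hi, show y 0 - c * y 0 = (1 - c) * y 0 by ring, mul_pow, hc, one_mul]
    by_cases hz : ∃ j, st c d y j = 0
    · obtain ⟨j, hj⟩ := hz
      obtain ⟨i, rfl⟩ : ∃ i : Fin n, j = i.castSucc := by
        revert hj
        refine Fin.lastCases ?_ (fun i _ => ⟨i, rfl⟩) j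
        intro hj
        exact absurd hj hlast
      have hκ : y 0 = c * y i.succ := by
        rw [st_cast] at hj
        exact sub_eq_zero.1 ((pow_eq_zero_iff hd).1 hj)
      have hκ0 : y i.succ ≠ 0 := by
        intro h
        rw [h, mul_zero] at hκ
        exact h0 hκ
      have hκ1 : y i.succ ≠ y 0 := by
        intro h
        rw [h] at hκ
        have h1 : (1 - c) * y 0 = 0 := by linear_combination hκ
        rcases mul_eq_zero.1 h1 with h2 | h2
        · exact hc1 (sub_eq_zero.1 h2).symm
        · exact h0 h2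
      refine ⟨Fin.last n, hlast, ?_⟩
      have h1 : (vs (st c d y)).card + 1 ≤ (vs y).card := by
        have hsub : vs (st c d y) ⊆ insert (y 0 ^ d)
            ((((vs y).erase (y 0)).erase (y i.succ)).image (fun v => (y 0 - c * v) ^ d)) := by
          intro v hv
          obtain ⟨hv0, j, rfl⟩ := mem_vs.1 hv
          rw [Finset.mem_insert, Finset.mem_image]
          revert hv0
          refine Fin.lastCases ?_ (fun l => ?_) j
          · intro _
            left
            exact st_last c d y
          · intro hv0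
            by_cases hl : y l.succ = 0 ∨ y l.succ = y 0
            · left
              exact hval l hl
            · right
              rw [not_or] at hl
              refine ⟨y l.succ, ?_, (st_cast c d y l).symm⟩
              rw [Finset.mem_erase, Finset.mem_erase]
              refine ⟨?_, hl.2, mem_vs.2 ⟨hl.1, _, rfl⟩⟩
              intro h
              rw [st_cast, h, ← hκ, sub_self, zero_pow hd] at hv0
              exact hv0 rfl
        have h2 := Finset.card_le_card hsub
        have h3 := Finset.card_insert_le (y 0 ^ d)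
            ((((vs y).erase (y 0)).erase (y i.succ)).image (fun v => (y 0 - c * v) ^ d))
        have h4 : ((((vs y).erase (y 0)).erase (y i.succ)).image (fun v => (y 0 - c * v) ^ d)).card ≤
            (((vs y).erase (y 0)).erase (y i.succ)).card := Finset.card_image_le
        have h5 : (((vs y).erase (y 0)).erase (y i.succ)).card = ((vs y).erase (y 0)).card - 1 :=
          Finset.card_erase_of_mem (Finset.mem_erase.2 ⟨hκ1, mem_vs.2 ⟨hκ0, _, rfl⟩⟩)
        have h6 : ((vs y).erase (y 0)).card = (vs y).card - 1 := Finset.card_erase_of_mem hy0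
        have h7 : 1 < (vs y).card :=
          Finset.one_lt_card.2 ⟨y 0, hy0, y i.succ, mem_vs.2 ⟨hκ0, _, rfl⟩, Ne.symm hκ1⟩
        omega
      have h2 : nz (st c d y) ≤ n := by
        unfold nz
        have h3 : (Finset.univ.filter fun j => st c d y j = 0) ⊆ Finset.univ.erase (Fin.last n) := by
          intro j hj
          rw [Finset.mem_filter] at hj
          rw [Finset.mem_erase]
          refine ⟨?_, Finset.mem_univ _⟩
          rintro rfl
          exact hlast hj.2
        refine (Finset.card_le_card h3).trans ?_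
        rw [Finset.card_erase_of_mem (Finset.mem_univ _)]
        simp
      have h3 : ((vs (st c d y)).card + 1) * (n + 1) ^ 2 ≤ (vs y).card * (n + 1) ^ 2 :=
        Nat.mul_le_mul_right _ h1
      rw [Fin.val_last]
      nlinarith
    · push Not at hz
      refine ⟨0, hz 0, ?_⟩
      have h1 : (vs (st c d y)).card ≤ (vs y).card := by
        have hsub : vs (st c d y) ⊆ insert (y 0 ^ d)
            (((vs y).erase (y 0)).image (fun v => (y 0 - c * v) ^ d)) := by
          intro v hv
          obtain ⟨hv0, j, rfl⟩ := mem_vs.1 hv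
          rw [Finset.mem_insert, Finset.mem_image]
          revert hv0
          refine Fin.lastCases ?_ (fun l => ?_) j
          · intro _
            left
            exact st_last c d y
          · intro hv0
            by_cases hl : y l.succ = 0 ∨ y l.succ = y 0
            · left
              exact hval l hl
            · right
              rw [not_or] at hl
              refine ⟨y l.succ, ?_, (st_cast c d y l).symm⟩
              rw [Finset.mem_erase]
              exact ⟨hl.2, mem_vs.2 ⟨hl.1, _, rfl⟩⟩
        have h2 := Finset.card_le_card hsub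
        have h3 := Finset.card_insert_le (y 0 ^ d)
            (((vs y).erase (y 0)).image (fun v => (y 0 - c * v) ^ d))
        have h4 : (((vs y).erase (y 0)).image (fun v => (y 0 - c * v) ^ d)).card ≤
            ((vs y).erase (y 0)).card := Finset.card_image_le
        have h6 : ((vs y).erase (y 0)).card = (vs y).card - 1 := Finset.card_erase_of_mem hy0
        have h7 : 0 < (vs y).card := Finset.card_pos.2 ⟨_, hy0⟩
        omega
      have h2 : nz (st c d y) = 0 := by
        unfold nz
        rw [Finset.card_eq_zero, Finset.filter_eq_empty_iff]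
        intro j _
        exact hz j
      have h3 : (vs (st c d y)).card * (n + 1) ^ 2 ≤ (vs y).card * (n + 1) ^ 2 :=
        Nat.mul_le_mul_right _ h1
      rw [h2]
      simp only [Fin.val_zero]
      omega

theorem pot {c : k} {d : ℕ} (hd : d ≠ 0) (hc0 : c ≠ 0) (hc1 : c ≠ 1) (hc : (1 - c) ^ d = 1) (t : ℕ)
    {y : Fin (n + 1) → k} {q : Fin (n + 1)} (hq : y q ≠ 0) :
    ∑ l ∈ Finset.range t, nz ((st c d)^[l + 1] y) ≤
      (q : ℕ) * (n + 1) + (vs y).card * (n + 1) ^ 2 := by
  induction t generalizing y q with
  | zero => simp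
  | succ t ih =>
    obtain ⟨q', hq', h⟩ := pot_step hd hc0 hc1 hc hq
    rw [Finset.sum_range_succ']
    have h1 := ih hq'
    simp only [Function.iterate_succ_apply] at h1 ⊢
    simp only [Function.iterate_zero, id_eq]
    omega

/-- the multiplicities of all iterates of the example are bounded -/
theorem LM_ex {c : k} {d : ℕ} (hd : (d : k) ≠ 0) (hc0 : c ≠ 0) (hc1 : c ≠ 1) (hc : (1 - c) ^ d = 1)
    (s t : ℕ) {y : Fin (n + 1) → k} (hy : y ≠ 0) :
    LM (itr (exF c d) t) y s (d ^ ((n + 1) * (n + 1) + (n + 1) * (n + 1) ^ 2)) := by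
  have hd0 : d ≠ 0 := by
    rintro rfl
    exact hd Nat.cast_zero
  have key : ∀ (t : ℕ) (y : Fin (n + 1) → k),
      LM (itr (exF c d) t) y s (d ^ ∑ l ∈ Finset.range t, nz ((st c d)^[l + 1] y)) := by
    intro t
    induction t with
    | zero =>
      intro y
      have h1 : itr (exF c d) 0 = (X : Fin (n + 1) → MvPolynomial (Fin (n + 1)) k) := by
        funext i
        rfl
      rw [h1, Finset.range_zero, Finset.sum_empty, pow_zero]
      exact LM.one_of_le (sys_X y).ge s
    | succ t ih =>
      intro y
      have h1 := (LM_exF hc0 hd y s).comp (ih (st c d y))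
      rw [← pow_add] at h1
      rw [Finset.sum_range_succ', add_comm (Finset.sum _ _) (nz _)]
      simp only [Function.iterate_succ_apply, Function.iterate_zero, id_eq] at h1 ⊢
      have h2 : itr (exF (n := n) c d) (t + 1) = fun i => bind₁ (exF c d) (itr (exF c d) t i) := by
        funext i
        exact itr_succ _ _ _
      rw [h2]
      exact h1
  obtain ⟨q, hq⟩ := Function.ne_iff.1 hy
  refine (key t y).mono le_rfl (Nat.pow_le_pow_right (Nat.pos_of_ne_zero hd0) ?_)
  refine (pot hd0 hc0 hc1 hc t hq).trans ?_
  have h1 := q.2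
  have h2 := card_vs y
  have h3 : (q : ℕ) * (n + 1) ≤ (n + 1) * (n + 1) := Nat.mul_le_mul_right _ h1.le
  have h4 : (vs y).card * (n + 1) ^ 2 ≤ (n + 1) * (n + 1) ^ 2 := Nat.mul_le_mul_right _ h2
  omega

end example_

end Pool.Agent.Helper61.DG
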