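import Mathlib
import Pool.Agent.Helper61.DG.Mult

/-!
# Generic maps: the multiplicity as a rank condition

The truncated local multiplicity of `G` at `z` is at most `m` if and only if one of the minors of size
`r` of a matrix is not zero; the entries of the matrix are polynomials in `z` and in the coefficients
of `G`.
-/

set_option autoImplicit false

namespace Pool.Agent.Helper61.DG

open MvPolynomial Module
open Pool.Agent.Helper52.RP (mI mem_mI Sp mult sp_one isUnit_mk)

section linalg

variable {L : Type*} [Field L]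

theorem exists_li {V : Type*} [AddCommGroup V] [Module L V] [FiniteDimensional L V] {ι : Type*}
    (v : ι → V) {r : ℕ} (h : r ≤ finrank L (Submodule.span L (Set.range v))) :
    ∃ γ : Fin r → ι, LinearIndependent L (v ∘ γ) := by
  obtain ⟨κ, a, ha, hsp, hli⟩ := exists_linearIndependent' L v
  have : Finite κ := hli.finite
  have := Fintype.ofFinite κ
  rw [← hsp, finrank_span_eq_card hli] at h
  obtain ⟨f⟩ : Nonempty (Fin r ↪ κ) := Function.Embedding.nonempty_of_card_le (by simpa using h)
  exact ⟨a ∘ f, hli.comp f f.injective⟩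

theorem exists_minor {B Col : Type*} [Fintype B] (A : Col → B → L) {r : ℕ}
    (h : r ≤ finrank L (Submodule.span L (Set.range A))) :
    ∃ (ρ : Fin r → B) (γ : Fin r → Col), (Matrix.of fun a b => A (γ b) (ρ a)).det ≠ 0 := by
  obtain ⟨γ, hγ⟩ := exists_li A h
  let M : Matrix (Fin r) B L := fun a b => A (γ a) b
  have h1 : M.rank = r := by
    have h2 : LinearIndependent L M.row := hγ
    rw [h2.rank_matrix, Fintype.card_fin]
  obtain ⟨ρ, hρ⟩ := exists_li M.col (r := r) (by rw [← Matrix.rank_eq_finrank_span_cols, h1])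
  refine ⟨ρ, γ, ?_⟩
  have h2 : LinearIndependent L (Matrix.of fun a b => A (γ b) (ρ a)).row := hρ
  rw [Matrix.linearIndependent_rows_iff_isUnit, Matrix.isUnit_iff_isUnit_det] at h2
  exact h2.ne_zero

theorem le_finrank {B Col : Type*} [Fintype B] (A : Col → B → L) {r : ℕ} {ρ : Fin r → B}
    {γ : Fin r → Col} (h : (Matrix.of fun a b => A (γ b) (ρ a)).det ≠ 0) :
    r ≤ finrank L (Submodule.span L (Set.range A)) := by
  have h1 : LinearIndependent L (Matrix.of fun a b => A (γ b) (ρ a)).col := by
    rw [Matrix.linearIndependent_cols_iff_isUnit, Matrix.isUnit_iff_isUnit_det]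
    exact h.isUnit
  have h2 : LinearIndependent L (A ∘ γ) := by
    refine LinearIndependent.of_comp (LinearMap.funLeft L L ρ) ?_
    exact h1
  have h3 := finrank_span_eq_card h2
  rw [Fintype.card_fin] at h3
  rw [← h3]
  refine Submodule.finrank_mono (Submodule.span_mono ?_)
  rintro _ ⟨a, rfl⟩
  exact ⟨γ a, rfl⟩

end linalg

section tay

variable {R : Type*} [CommRing R] {n : ℕ}

/-- expansion at a general point -/
noncomputable def tayH : MvPolynomial (Fin n) R →+* MvPolynomial (Fin n) (MvPolynomial (Fin n) R) :=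
  eval₂Hom (C.comp C) (fun i => C (X i) + X i)

/-- exponents of degree less than `s` -/
def BT (n s : ℕ) : Finset (Fin n →₀ ℕ) :=
  (Finset.range s).biUnion fun T => (Finset.univ : Finset (Fin n)).finsuppAntidiag T

theorem mem_BT {s : ℕ} {β : Fin n →₀ ℕ} : β ∈ BT n s ↔ β.degree < s := by
  unfold BT
  rw [Finset.mem_biUnion]
  constructor
  · rintro ⟨T, hT, h⟩
    rw [mem_monT] at h
    rw [h]
    exact Finset.mem_range.1 hT
  · intro h
    exact ⟨β.degree, Finset.mem_range.2 h, mem_monT.2 rfl⟩

/-- the entries of the matrix -/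
noncomputable def ent (G : Fin n → MvPolynomial (Fin n) R) (β : Fin n →₀ ℕ)
    (c : Fin n × (Fin n →₀ ℕ)) : MvPolynomial (Fin n) R :=
  coeff β (monomial c.2 1 * (tayH (G c.1) - C (G c.1)))

/-- the minors -/
noncomputable def mnr {r s : ℕ} (G : Fin n → MvPolynomial (Fin n) R) (ρ : Fin r → BT n s)
    (γ : Fin r → Fin n × BT n s) : MvPolynomial (Fin n) R :=
  (Matrix.of fun a b => ent G (ρ a).1 ((γ b).1, (γ b).2.1)).det

theorem tay_map {R' : Type*} [CommRing R'] (φ : R →+* R') (g : MvPolynomial (Fin n) R) :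
    MvPolynomial.map (MvPolynomial.map φ) (tayH g) = tayH (MvPolynomial.map φ g) := by
  have h : (MvPolynomial.map (MvPolynomial.map φ)).comp tayH =
      (tayH.comp (MvPolynomial.map φ) :
        MvPolynomial (Fin n) R →+* MvPolynomial (Fin n) (MvPolynomial (Fin n) R')) := by
    apply MvPolynomial.ringHom_ext
    · intro a
      simp [tayH]
    · intro i
      simp [tayH]
  exact congrArg (fun f => f g) h

theorem ent_map {R' : Type*} [CommRing R'] (φ : R →+* R') (G : Fin n → MvPolynomial (Fin n) R)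
    (β : Fin n →₀ ℕ) (c : Fin n × (Fin n →₀ ℕ)) :
    MvPolynomial.map φ (ent G β c) = ent (fun i => MvPolynomial.map φ (G i)) β c := by
  unfold ent
  rw [← coeff_map, map_mul, map_sub, tay_map, map_monomial, map_one, map_C]

theorem mnr_map {R' : Type*} [CommRing R'] (φ : R →+* R') {r s : ℕ}
    (G : Fin n → MvPolynomial (Fin n) R) (ρ : Fin r → BT n s) (γ : Fin r → Fin n × BT n s) :
    MvPolynomial.map φ (mnr G ρ γ) = mnr (fun i => MvPolynomial.map φ (G i)) ρ γ := by
  unfold mnr
  rw [RingHom.map_det]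
  congr 1
  ext a b
  rw [RingHom.mapMatrix_apply, Matrix.map_apply, Matrix.of_apply, Matrix.of_apply, ent_map]

end tay

section point

variable {L : Type*} [Field L] {n : ℕ}

/-- translation -/
noncomputable def sh (z : Fin n → L) : MvPolynomial (Fin n) L →ₐ[L] MvPolynomial (Fin n) L :=
  bind₁ fun i => C (z i) + X i

/-- the inverse translation -/
noncomputable def un (z : Fin n → L) : MvPolynomial (Fin n) L →ₐ[L] MvPolynomial (Fin n) L :=
  bind₁ fun i => X i - C (z i)

theorem sh_un (z : Fin n → L) (f : MvPolynomial (Fin n) L) : sh z (un z f) = f := by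
  unfold sh un
  rw [bind₁_bind₁]
  have : (fun i => (bind₁ fun i => C (z i) + X i) (X i - C (z i))) =
      (X : Fin n → MvPolynomial (Fin n) L) := by
    funext i
    simp
  rw [this]
  simp

theorem un_sh (z : Fin n → L) (f : MvPolynomial (Fin n) L) : un z (sh z f) = f := by
  unfold sh un
  rw [bind₁_bind₁]
  have : (fun i => (bind₁ fun i => X i - C (z i)) (C (z i) + X i)) =
      (X : Fin n → MvPolynomial (Fin n) L) := by
    funext i
    simp
  rw [this]
  simp

theorem map_sh (z : Fin n → L) : (mI z).map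
    ((sh z : MvPolynomial (Fin n) L →ₐ[L] MvPolynomial (Fin n) L) :
      MvPolynomial (Fin n) L →+* MvPolynomial (Fin n) L) = idealOfVars (Fin n) L := by
  have h := map_mI (fun i => C (z i) + X i : Fin n → MvPolynomial (Fin n) L) 0
  have h1 : (fun i => eval (0 : Fin n → L) (C (z i) + X i)) = z := by
    funext i
    simp
  rw [h1] at h
  rw [sh, h]
  unfold sys idealOfVars
  congr 2
  funext i
  simp

theorem map_un (z : Fin n → L) : (idealOfVars (Fin n) L).map
    ((un z : MvPolynomial (Fin n) L →ₐ[L] MvPolynomial (Fin n) L) :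
      MvPolynomial (Fin n) L →+* MvPolynomial (Fin n) L) = mI z := by
  rw [← map_sh z, Ideal.map_map]
  have : ((un z : MvPolynomial (Fin n) L →ₐ[L] MvPolynomial (Fin n) L) :
      MvPolynomial (Fin n) L →+* MvPolynomial (Fin n) L).comp
      ((sh z : MvPolynomial (Fin n) L →ₐ[L] MvPolynomial (Fin n) L) :
      MvPolynomial (Fin n) L →+* MvPolynomial (Fin n) L) = RingHom.id _ := by
    apply RingHom.ext
    intro f
    exact un_sh z f
  rw [this, Ideal.map_id]

/-- the truncated expansion at `z` -/
noncomputable def tr (s : ℕ) (z : Fin n → L) : MvPolynomial (Fin n) L →ₗ[L] (BT n s → L) where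
  toFun f β := coeff β.1 (sh z f)
  map_add' f g := by
    funext β
    rw [map_add, coeff_add]
    rfl
  map_smul' a f := by
    funext β
    rw [map_smul, coeff_smul]
    rfl

theorem tr_apply (s : ℕ) (z : Fin n → L) (f : MvPolynomial (Fin n) L) (β : BT n s) :
    tr s z f β = coeff β.1 (sh z f) := rfl

theorem tr_eq_zero {s : ℕ} {z : Fin n → L} {f : MvPolynomial (Fin n) L} :
    tr s z f = 0 ↔ f ∈ mI z ^ s := by
  have h1 : tr s z f = 0 ↔ sh z f ∈ idealOfVars (Fin n) L ^ s := by
    rw [mem_pow_idealOfVars_iff']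
    constructor
    · intro h β hβ
      exact congrFun h ⟨β, mem_BT.2 hβ⟩
    · intro h
      funext β
      exact h β.1 (mem_BT.1 β.2)
  rw [h1]
  constructor
  · intro h
    rw [← un_sh z f, ← map_un z, ← Ideal.map_pow]
    exact Ideal.mem_map_of_mem _ h
  · intro h
    rw [← map_sh z, ← Ideal.map_pow]
    exact Ideal.mem_map_of_mem _ h

/-- the monomials at `z` -/
noncomputable def mon (z : Fin n → L) (β : Fin n →₀ ℕ) : MvPolynomial (Fin n) L := un z (monomial β 1)

theorem tr_mon (s : ℕ) (z : Fin n → L) (w : BT n s → L) :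
    tr s z (∑ β : BT n s, C (w β) * mon z β.1) = w := by
  funext β
  rw [tr_apply, map_sum, coeff_sum]
  have h1 : ∀ α : BT n s, coeff β.1 (sh z (C (w α) * mon z α.1)) = if α = β then w α else 0 := by
    intro α
    rw [map_mul]
    unfold mon
    rw [sh_un]
    have h2 : sh z (C (w α)) = C (w α) := by
      unfold sh
      exact bind₁_C_right _ _
    rw [h2, coeff_C_mul, coeff_monomial]
    by_cases h : α = β
    · rw [if_pos h, if_pos (congrArg Subtype.val h), mul_one]
    · rw [if_neg h, if_neg fun h' => h (Subtype.ext h'), mul_zero]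
  rw [Finset.sum_congr rfl fun α _ => h1 α, Finset.sum_ite_eq' , if_pos (Finset.mem_univ _)]

/-- the columns -/
noncomputable def vec (G : Fin n → MvPolynomial (Fin n) L) (s : ℕ) (z : Fin n → L)
    (c : Fin n × BT n s) : BT n s → L :=
  tr s z (mon z c.2.1 * (G c.1 - C (eval z (G c.1))))

theorem vec_apply (G : Fin n → MvPolynomial (Fin n) L) (s : ℕ) (z : Fin n → L)
    (c : Fin n × BT n s) (β : BT n s) : vec G s z c β = eval z (ent G β.1 (c.1, c.2.1)) := by
  unfold vec ent
  rw [tr_apply, ← coeff_map, map_mul, map_mul]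
  have h1 : sh z (mon z c.2.1) = MvPolynomial.map (eval z) (monomial c.2.1 1) := by
    unfold mon
    rw [sh_un, map_monomial, RingHom.map_one]
  have h2 : ∀ g : MvPolynomial (Fin n) L, sh z g = MvPolynomial.map (eval z) (tayH g) := by
    intro g
    have h3 : ((sh z : MvPolynomial (Fin n) L →ₐ[L] MvPolynomial (Fin n) L) :
        MvPolynomial (Fin n) L →+* MvPolynomial (Fin n) L) =
        (MvPolynomial.map (eval z)).comp tayH := by
      apply MvPolynomial.ringHom_ext
      · intro a
        simp [tayH, sh]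
      · intro i
        simp [tayH, sh]
    exact congrArg (fun f => f g) h3
  have h3 : sh z (C (eval z (G c.1))) = MvPolynomial.map (eval z) (C (G c.1)) := by
    rw [map_C]
    unfold sh
    exact bind₁_C_right _ _
  rw [h1, map_sub, map_sub, h2 (G c.1), h3]

theorem vec_mem (G : Fin n → MvPolynomial (Fin n) L) (s : ℕ) (z : Fin n → L) {w : BT n s → L}
    (hw : w ∈ Submodule.span L (Set.range (vec G s z))) : ∃ f ∈ sys G z, tr s z f = w := by
  refine Submodule.span_induction (p := fun w _ => ∃ f ∈ sys G z, tr s z f = w) ?_ ?_ ?_ ?_ hw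
  · rintro _ ⟨c, rfl⟩
    exact ⟨_, Ideal.mul_mem_left _ _ (Ideal.subset_span ⟨c.1, rfl⟩), rfl⟩
  · exact ⟨0, zero_mem _, map_zero _⟩
  · rintro _ _ _ _ ⟨f, hf, rfl⟩ ⟨g, hg, rfl⟩
    exact ⟨f + g, add_mem hf hg, map_add _ _ _⟩
  · rintro a _ _ ⟨f, hf, rfl⟩
    refine ⟨a • f, ?_, map_smul _ _ _⟩
    rw [smul_eq_C_mul]
    exact Ideal.mul_mem_left _ _ hf

theorem mem_vec (G : Fin n → MvPolynomial (Fin n) L) (s : ℕ) (z : Fin n → L)
    {f : MvPolynomial (Fin n) L} (hf : f ∈ sys G z ⊔ mI z ^ s) :
    tr s z f ∈ Submodule.span L (Set.range (vec G s z)) := by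
  have key : ∀ (r : MvPolynomial (Fin n) L) (i : Fin n),
      tr s z (r * (G i - C (eval z (G i)))) ∈ Submodule.span L (Set.range (vec G s z)) := by
    intro r i
    have h1 : r - ∑ β : BT n s, C (tr s z r β) * mon z β.1 ∈ mI z ^ s := by
      rw [← tr_eq_zero, map_sub, tr_mon, sub_self]
    have h2 : tr s z (r * (G i - C (eval z (G i)))) =
        tr s z ((∑ β : BT n s, C (tr s z r β) * mon z β.1) * (G i - C (eval z (G i)))) := by
      rw [← sub_eq_zero, ← map_sub, ← sub_mul, tr_eq_zero]
      exact Ideal.mul_mem_right _ _ h1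
    rw [h2, Finset.sum_mul, map_sum]
    refine Submodule.sum_mem _ fun β _ => ?_
    have h3 : C (tr s z r β) * mon z β.1 * (G i - C (eval z (G i))) =
        tr s z r β • (mon z β.1 * (G i - C (eval z (G i)))) := by
      rw [smul_eq_C_mul]
      ring
    rw [h3, map_smul]
    exact Submodule.smul_mem _ _ (Submodule.subset_span ⟨(i, β), rfl⟩)
  obtain ⟨x, hx, y, hy, rfl⟩ := Submodule.mem_sup.1 hf
  rw [map_add, tr_eq_zero.2 hy, add_zero]
  obtain ⟨c, rfl⟩ := (Ideal.mem_span_range_iff_exists_fun).1 hx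
  rw [map_sum]
  exact Submodule.sum_mem _ fun i _ => key (c i) i

/-- the number of columns of the minors -/
def rk (n s m : ℕ) : ℕ := (BT n s).card - m

theorem LM_iff (G : Fin n → MvPolynomial (Fin n) L) (s m : ℕ) (z : Fin n → L) :
    LM G z s m ↔ rk n s m ≤ finrank L (Submodule.span L (Set.range (vec G s z))) := by
  set U := Submodule.span L (Set.range (vec G s z)) with hU
  have h0 : finrank L ((BT n s → L) ⧸ U) + finrank L U = (BT n s).card := by
    rw [Submodule.finrank_quotient_add_finrank, finrank_fintype_fun_eq_card, Fintype.card_coe]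
  constructor
  · rintro ⟨ι, hι, e, hc, he⟩
    let g : (ι → L) →ₗ[L] ((BT n s → L) ⧸ U) :=
      Fintype.linearCombination L (fun a => U.mkQ (tr s z (e a)))
    have hg : Function.Surjective g := by
      intro x
      obtain ⟨w, rfl⟩ := U.mkQ_surjective x
      obtain ⟨c, hc⟩ := he (∑ β : BT n s, C (w β) * mon z β.1)
      refine ⟨c, ?_⟩
      have h1 := mem_vec G s z hc
      rw [map_sub, tr_mon, map_sum] at h1
      have h2 : U.mkQ w = U.mkQ (∑ a, tr s z (C (c a) * e a)) := by
        rw [← sub_eq_zero, ← map_sub, Submodule.mkQ_apply, Submodule.Quotient.mk_eq_zero]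
        exact h1
      rw [h2, map_sum]
      simp only [g, Fintype.linearCombination_apply]
      refine Finset.sum_congr rfl fun a _ => ?_
      rw [← smul_eq_C_mul, map_smul, map_smul]
    have h1 := LinearMap.finrank_le_finrank_of_surjective hg
    rw [finrank_fintype_fun_eq_card] at h1
    unfold rk
    omega
  · intro h
    unfold rk at h
    have h1 : finrank L ((BT n s → L) ⧸ U) ≤ m := by omega
    let b := Module.finBasis L ((BT n s → L) ⧸ U)
    choose w hw using fun a => U.mkQ_surjective (b a)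
    refine ⟨_, inferInstance, fun a => ∑ β : BT n s, C (w a β) * mon z β.1,
      by rw [Fintype.card_fin]; exact h1, fun f => ?_⟩
    refine ⟨fun a => b.repr (U.mkQ (tr s z f)) a, ?_⟩
    have h2 : tr s z (f - ∑ a, C (b.repr (U.mkQ (tr s z f)) a) * ∑ β : BT n s, C (w a β) * mon z β.1) ∈
        U := by
      rw [← Submodule.Quotient.mk_eq_zero U, ← Submodule.mkQ_apply, map_sub, map_sub, sub_eq_zero,
        map_sum, map_sum]
      conv_lhs => rw [← b.sum_repr (U.mkQ (tr s z f))]
      refine Finset.sum_congr rfl fun a _ => ?_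
      rw [← smul_eq_C_mul, map_smul, map_smul, tr_mon, hw]
    obtain ⟨g, hg, hg'⟩ := vec_mem G s z h2
    have h3 : (f - ∑ a, C (b.repr (U.mkQ (tr s z f)) a) * ∑ β : BT n s, C (w a β) * mon z β.1) - g ∈
        mI z ^ s := by
      rw [← tr_eq_zero, map_sub, hg', sub_self]
    have h4 := Ideal.add_mem _ (Ideal.mem_sup_left hg : g ∈ sys G z ⊔ mI z ^ s)
      (Ideal.mem_sup_right h3)
    rwa [add_sub_cancel] at h4

theorem eval_mnr (G : Fin n → MvPolynomial (Fin n) L) {r s : ℕ} (z : Fin n → L) (ρ : Fin r → BT n s)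
    (γ : Fin r → Fin n × BT n s) :
    eval z (mnr G ρ γ) = (Matrix.of fun a b => vec G s z (γ b) (ρ a)).det := by
  unfold mnr
  rw [RingHom.map_det]
  congr 1
  ext a b
  rw [RingHom.mapMatrix_apply, Matrix.map_apply, Matrix.of_apply, Matrix.of_apply, vec_apply]

/-- The rank condition. -/
theorem LM_iff_mnr (G : Fin n → MvPolynomial (Fin n) L) (s m : ℕ) (z : Fin n → L) :
    LM G z s m ↔ ∃ (ρ : Fin (rk n s m) → BT n s) (γ : Fin (rk n s m) → Fin n × BT n s),
      eval z (mnr G ρ γ) ≠ 0 := by
  rw [LM_iff]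
  constructor
  · intro h
    obtain ⟨ρ, γ, hργ⟩ := exists_minor (vec G s z) h
    exact ⟨ρ, γ, by rw [eval_mnr]; exact hργ⟩
  · rintro ⟨ρ, γ, h⟩
    rw [eval_mnr] at h
    exact le_finrank (vec G s z) h

end point

end Pool.Agent.Helper61.DG
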