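import Mathlib
import Pool.Agent.Helper61.DG.Minor
import Pool.Agent.Helper61.DG.Ex
import Pool.Agent.Helper61.DC.Main

/-!
# Generic maps: assembly
-/

set_option autoImplicit false

namespace Pool.Agent.Helper61.DG

open MvPolynomial Module NumberField
open Pool.Agent.Helper52.RP (mI mem_mI Sp mult sp_one isUnit_mk)
open Pool.Agent.Helper26.RC (infMap Reg orb)
open Pool.Agent.Helper61.DC (tf hc_map eval_iter)

/-- An example in every dimension. -/
theorem exists_example (k : Type*) [Field k] [IsAlgClosed k] [CharZero k] (N : ℕ) {d : ℕ}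
    (hd : 2 ≤ d) : ∃ F : Fin N → MvPolynomial (Fin N) k, (∀ i, (F i).IsHomogeneous d) ∧
      (∀ z : Fin N → k, (∀ i, eval z (F i) = 0) → z = 0) ∧
      ∃ B : ℕ, ∀ (t s : ℕ) (z : Fin N → k), z ≠ 0 → LM (itr F t) z s (d ^ B) := by
  rcases N with _ | n
  · exact ⟨0, fun i => i.elim0, fun z _ => Subsingleton.elim _ _, 0,
      fun t s z hz => absurd (Subsingleton.elim _ _) hz⟩
  · obtain ⟨ζ, hζ⟩ := IsAlgClosed.exists_root (∑ i ∈ Finset.range d, (Polynomial.X : Polynomial k) ^ i) (by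
      intro h
      have h1 : (∑ i ∈ Finset.range d, (Polynomial.X : Polynomial k) ^ i).coeff (d - 1) = 1 := by
        rw [Polynomial.finsetSum_coeff]
        simp only [Polynomial.coeff_X_pow]
        rw [Finset.sum_ite_eq, if_pos (Finset.mem_range.2 (by omega))]
      rw [Polynomial.eq_C_of_degree_eq_zero h, Polynomial.coeff_C, if_neg (by omega)] at h1
      exact zero_ne_one h1)
    rw [Polynomial.IsRoot, Polynomial.eval_finsetSum] at hζ
    simp only [Polynomial.eval_pow, Polynomial.eval_X] at hζ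
    have hζd : ζ ^ d = 1 := by
      have h1 := geom_sum_mul ζ d
      rw [hζ, zero_mul] at h1
      exact (sub_eq_zero.1 h1.symm)
    have hd0 : (d : k) ≠ 0 := by
      rw [Nat.cast_ne_zero]
      omega
    have hζ1 : ζ ≠ 1 := by
      rintro rfl
      simp only [one_pow, Finset.sum_const, Finset.card_range, nsmul_eq_mul, mul_one] at hζ
      exact hd0 hζ
    have hζ0 : ζ ≠ 0 := by
      rintro rfl
      rw [zero_pow (by omega)] at hζd
      exact zero_ne_one hζd
    have hc0 : 1 - ζ ≠ 0 := sub_ne_zero.2 hζ1.symm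
    have hc1 : 1 - ζ ≠ 1 := by
      intro h
      exact hζ0 (by linear_combination -h)
    have hc : (1 - (1 - ζ)) ^ d = 1 := by
      rw [sub_sub_cancel, hζd]
    refine ⟨exF (1 - ζ) d, ?_, ?_, _, fun t s z hz => LM_ex hd0 hc0 hc1 hc s t hz⟩
    · intro i
      unfold exF
      have h1 : (lin (1 - ζ) i : MvPolynomial (Fin (n + 1)) k).IsHomogeneous 1 := by
        unfold lin
        refine Fin.lastCases ?_ (fun l => ?_) i
        · rw [Fin.lastCases_last]
          exact isHomogeneous_X k 0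
        · rw [Fin.lastCases_castSucc]
          refine (isHomogeneous_X k 0).sub ?_
          exact (isHomogeneous_X k _).C_mul _
      have h2 := h1.pow d
      rwa [one_mul] at h2
    · intro z hz
      by_contra hne
      obtain ⟨q, hq⟩ := Function.ne_iff.1 hne
      obtain ⟨q', hq', -⟩ := pot_step (d := d) (by omega) hc0 hc1 hc hq
      exact hq' (hz q')

section universal

variable {N d : ℕ}

/-- the coefficients of the forms of degree `d` -/
abbrev TC (N d : ℕ) : Type := Fin N × {s : Fin N →₀ ℕ // s.degree = d}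

/-- the forms with the coefficients `c` -/
noncomputable def fm {R : Type*} [CommRing R] (c : TC N d → R) (i : Fin N) : MvPolynomial (Fin N) R :=
  ∑ s : MonT N d, monomial s.1 (c (i, ⟨s.1, mem_monT.1 s.2⟩))

theorem fm_map {R S : Type*} [CommRing R] [CommRing S] (φ : R →+* S) (c : TC N d → R) (i : Fin N) :
    MvPolynomial.map φ (fm c i) = fm (fun t => φ (c t)) i := by
  unfold fm
  rw [map_sum]
  refine Finset.sum_congr rfl fun s _ => ?_
  rw [map_monomial]

theorem fm_coeff {R : Type*} [CommRing R] (Φ : Fin N → MvPolynomial (Fin N) R) (i : Fin N) :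
    fm (d := d) (fun t => coeff t.2.1 (Φ t.1)) i = homogeneousComponent d (Φ i) := by
  ext m
  unfold fm
  rw [coeff_homogeneousComponent, coeff_sum]
  simp only [coeff_monomial]
  split_ifs with h
  · rw [Finset.sum_eq_single (⟨m, mem_monT.2 h⟩ : MonT N d)]
    · rw [if_pos rfl]
    · rintro ⟨b, hb⟩ - hne
      rw [if_neg]
      rintro rfl
      exact hne rfl
    · intro h'
      exact absurd (Finset.mem_univ _) h'
  · refine Finset.sum_eq_zero ?_
    rintro ⟨b, hb⟩ -
    rw [if_neg]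
    rintro rfl
    exact h (mem_monT.1 hb)

theorem fm_hom {R : Type*} [CommRing R] (c : TC N d → R) (i : Fin N) : (fm c i).IsHomogeneous d := by
  unfold fm
  refine IsHomogeneous.sum _ _ _ fun s _ => ?_
  exact isHomogeneous_monomial _ (mem_monT.1 s.2)

theorem itr_map {R S σ : Type*} [CommRing R] [CommRing S] (φ : R →+* S)
    (F : σ → MvPolynomial σ R) (t : ℕ) (i : σ) :
    MvPolynomial.map φ (itr F t i) = itr (fun i => MvPolynomial.map φ (F i)) t i := by
  induction t with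
  | zero => exact map_X _ _
  | succ t ih => rw [itr_succ, itr_succ, map_bind₁, ih]

theorem itr_hom {R : Type*} [CommRing R] {F : Fin N → MvPolynomial (Fin N) R}
    (hF : ∀ i, (F i).IsHomogeneous d) (t : ℕ) (i : Fin N) : (itr F t i).IsHomogeneous (d ^ t) := by
  induction t with
  | zero => exact isHomogeneous_X R i
  | succ t ih =>
    rw [itr_succ, pow_succ']
    exact ih.aeval F hF

/-- The polynomial in the coefficients. -/
theorem exists_psi' (k : Type*) [Field k] [IsAlgClosed k] [CharZero k] [Algebra k ℂ]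
    [Algebra.IsAlgebraic ℤ k] (N : ℕ) {d : ℕ} (hd : 2 ≤ d) : ∃ Ψ : MvPolynomial (TC N d) ℤ, Ψ ≠ 0 ∧
    ∃ k0 : ℕ, 0 < k0 ∧ ∀ c : TC N d → ℂ, aeval c Ψ ≠ 0 →
      (∀ z : Fin N → ℂ, (∀ i, eval z (fm c i) = 0) → z = 0) ∧
      ∀ z : Fin N → ℂ, z ≠ 0 → ∃ t : ℕ, 0 < t ∧
        ∃ (ρ : Fin (rk N (d ^ k0) (d ^ k0 - 1)) → BT N (d ^ k0))
          (γ : Fin (rk N (d ^ k0) (d ^ k0 - 1)) → Fin N × BT N (d ^ k0)),
          eval (fun i => (t : ℂ) * z i) (mnr (itr (fm c) k0) ρ γ) ≠ 0 := by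
  obtain ⟨F, hF1, hF2, B, hB⟩ := exists_example k N hd
  set k0 := B + 1 with hk0
  have hpow : d ^ B ≤ d ^ k0 - 1 := by
    have h1 : d ^ B < d ^ k0 := Nat.pow_lt_pow_right (by omega) (by omega)
    omega
  let c0 : TC N d → k := fun t => coeff t.2.1 (F t.1)
  have hc0 : fm c0 = F := by
    funext i
    rw [fm_coeff]
    exact homogeneousComponent_eq_self (hF1 i)
  let UF : Fin N → MvPolynomial (Fin N) (MvPolynomial (TC N d) k) := fm X
  -- regularity
  obtain ⟨Δ1, hΔ1, h1⟩ := elim (Ω := ℂ) (fun i : Fin N => UF i) c0 (by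
    intro z hz
    apply hF2
    intro i
    have h := hz i
    change eval z (MvPolynomial.map (eval c0) (fm X i)) = 0 at h
    rw [fm_map] at h
    simp only [eval_X] at h
    rw [← hc0]
    exact h)
  -- multiplicities
  obtain ⟨Δ2, hΔ2, h2⟩ := elim (Ω := ℂ)
    (fun j : (Fin (rk N (d ^ k0) (d ^ k0 - 1)) → BT N (d ^ k0)) ×
      (Fin (rk N (d ^ k0) (d ^ k0 - 1)) → Fin N × BT N (d ^ k0)) => mnr (itr UF k0) j.1 j.2) c0 (by
    intro z hz
    by_contra hne
    have h3 := (hB k0 (d ^ k0) z hne).mono le_rfl hpow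
    obtain ⟨ρ, γ, h4⟩ := (LM_iff_mnr _ _ _ _).1 h3
    apply h4
    have h5 := hz (ρ, γ)
    rw [mnr_map] at h5
    have h6 : (fun i => MvPolynomial.map (eval c0) (itr UF k0 i)) = itr F k0 := by
      funext i
      rw [itr_map]
      congr 1
      funext l
      change MvPolynomial.map (eval c0) (fm X l) = F l
      rw [fm_map]
      simp only [eval_X]
      rw [← hc0]
    rw [h6] at h5
    exact h5)
  obtain ⟨Ψ, hΨ, hdvd⟩ := MvPolynomial.exists_dvd_map_of_isAlgebraic (R := ℤ) (mul_ne_zero hΔ1 hΔ2)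
  refine ⟨Ψ, hΨ, k0, Nat.succ_pos _, fun c hc => ?_⟩
  have hc12 : aeval c Δ1 * aeval c Δ2 ≠ 0 := by
    rw [← map_mul]
    intro h3
    apply hc
    obtain ⟨q, hq⟩ := hdvd
    have h4 : aeval c (MvPolynomial.map (algebraMap ℤ k) Ψ) = aeval c Ψ := by
      rw [aeval_def, eval₂_map, aeval_def]
      congr 1
      exact RingHom.ext_int _ _
    rw [← h4, hq, map_mul, h3, zero_mul]
  have hUF : ∀ i, MvPolynomial.map (eval₂Hom (algebraMap k ℂ) c) (UF i) =
      fm c i := by
    intro i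
    change MvPolynomial.map _ (fm X i) = fm c i
    rw [fm_map]
    simp only [eval₂Hom_X']
  refine ⟨fun z hz => ?_, fun z hz => ?_⟩
  · refine h1 c (left_ne_zero_of_mul hc12) z fun t ht i => ?_
    rw [hUF, eval_smul_hom (fm_hom c i), hz i, mul_zero]
  · by_contra hcon
    apply hz
    refine h2 c (right_ne_zero_of_mul hc12) z fun t ht j => ?_
    by_contra hne
    apply hcon
    refine ⟨t, ht, j.1, j.2, ?_⟩
    rw [mnr_map] at hne
    have h6 : (fun i => MvPolynomial.map (eval₂Hom (algebraMap k ℂ) c)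
        (itr UF k0 i)) = itr (fm c) k0 := by
      funext i
      rw [itr_map]
      congr 1
      funext l
      exact hUF l
    rw [h6] at hne
    exact hne

theorem isAlgebraic_int (k : Type*) [Field k] (i : Algebra ℚ k)
    (h : @Algebra.IsAlgebraic ℚ k _ _ i) : Algebra.IsAlgebraic ℤ k := by
  refine ⟨fun x => ?_⟩
  obtain ⟨p, hp, hx⟩ := h.isAlgebraic x
  obtain ⟨b, hb0, hb⟩ := IsLocalization.integerNormalization_spec (nonZeroDivisors ℤ) p
  refine ⟨IsLocalization.integerNormalization (nonZeroDivisors ℤ) p, ?_, ?_⟩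
  · intro h0
    rw [h0, Polynomial.map_zero] at hb
    have h2 := hb.symm
    rw [smul_eq_zero] at h2
    rcases h2 with h3 | h3
    · exact nonZeroDivisors.ne_zero hb0 h3
    · exact hp h3
  · have h4 : Polynomial.aeval x (Polynomial.map (algebraMap ℤ ℚ)
        (IsLocalization.integerNormalization (nonZeroDivisors ℤ) p)) = 0 := by
      rw [hb, map_zsmul, hx, smul_zero]
    rw [Polynomial.aeval_def, Polynomial.eval₂_map] at h4
    rw [Polynomial.aeval_def, ← h4]
    congr 1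
    exact RingHom.ext_int _ _

/-- The polynomial in the coefficients. -/
theorem exists_psi (N : ℕ) {d : ℕ} (hd : 2 ≤ d) : ∃ Ψ : MvPolynomial (TC N d) ℤ, Ψ ≠ 0 ∧
    ∃ k0 : ℕ, 0 < k0 ∧ ∀ c : TC N d → ℂ, aeval c Ψ ≠ 0 →
      (∀ z : Fin N → ℂ, (∀ i, eval z (fm c i) = 0) → z = 0) ∧
      ∀ z : Fin N → ℂ, z ≠ 0 → ∃ t : ℕ, 0 < t ∧
        ∃ (ρ : Fin (rk N (d ^ k0) (d ^ k0 - 1)) → BT N (d ^ k0))
          (γ : Fin (rk N (d ^ k0) (d ^ k0 - 1)) → Fin N × BT N (d ^ k0)),
          eval (fun i => (t : ℂ) * z i) (mnr (itr (fm c) k0) ρ γ) ≠ 0 := by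
  have h : Algebra.IsAlgebraic ℚ (AlgebraicClosure ℚ) := AlgebraicClosure.isAlgebraic ℚ
  let f : AlgebraicClosure ℚ →ₐ[ℚ] ℂ := IsAlgClosed.lift
  let _ : Algebra (AlgebraicClosure ℚ) ℂ := f.toRingHom.toAlgebra
  have := isAlgebraic_int (AlgebraicClosure ℚ) _ (AlgebraicClosure.isAlgebraic ℚ)
  exact exists_psi' (AlgebraicClosure ℚ) N hd

end universal

section points

variable {K : Type} [Field K] [NumberField K] [Algebra K ℂ] {N d : ℕ}

omit [NumberField K] [Algebra K ℂ] in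
theorem fm_tf (L : Type*) [Field L] [Algebra K L] (Φ : Fin N → MvPolynomial (Fin N) K) (i : Fin N) :
    fm (d := d) (fun t => algebraMap K L (coeff t.2.1 (Φ t.1))) i = tf L d Φ i := by
  unfold tf
  rw [← fm_coeff (fun i => MvPolynomial.map (algebraMap K L) (Φ i))]
  simp only [coeff_map]

omit [NumberField K] in
theorem tf_map (L : Type*) [Field L] [Algebra K L] (j : L →ₐ[K] ℂ)
    (Φ : Fin N → MvPolynomial (Fin N) K) (i : Fin N) :
    MvPolynomial.map (j : L →+* ℂ) (tf L d Φ i) = tf ℂ d Φ i := by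
  unfold tf
  rw [hc_map, hc_map, MvPolynomial.map_map]
  congr 2
  exact j.comp_algebraMap

/-- Small multiplicities at all points at infinity give small multiplicities for a period of every
periodic point over an extension. -/
theorem per_small {N d : ℕ} (hd : 2 ≤ d) {k0 : ℕ} (hk0 : 0 < k0) {K : Type} [Field K]
    [CharZero K] [Algebra K ℂ] (Φ : Fin N → MvPolynomial (Fin N) K) (hdeg : ∀ i, (Φ i).totalDegree ≤ d)
    (hreg : ∀ z : Fin N → ℂ, (∀ i, eval z (tf ℂ d Φ i) = 0) → z = 0)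
    (hmul : ∀ z : Fin N → ℂ, z ≠ 0 → ∃ t : ℕ, 0 < t ∧
      ∃ (ρ : Fin (rk N (d ^ k0) (d ^ k0 - 1)) → BT N (d ^ k0))
        (γ : Fin (rk N (d ^ k0) (d ^ k0 - 1)) → Fin N × BT N (d ^ k0)),
        eval (fun i => (t : ℂ) * z i) (mnr (itr (tf ℂ d Φ) k0) ρ γ) ≠ 0) :
    Reg ℂ d Φ ∧ ∀ (L : Type) [Field L] [Algebra K L] (_ : L →ₐ[K] ℂ) (z : Fin N → L), z ≠ 0 →
      (∃ k, 0 < k ∧ ∃ c : L, c ≠ 0 ∧ ∀ i, eval z ((bind₁ (tf L d Φ))^[k] (X i)) = c * z i) →
      ∃ k, 0 < k ∧ (∃ c : L, c ≠ 0 ∧ ∀ i, eval z ((bind₁ (tf L d Φ))^[k] (X i)) = c * z i) ∧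
        mult z (Ideal.span (Set.range fun i =>
          (bind₁ (tf L d Φ))^[k] (X i) - C (eval z ((bind₁ (tf L d Φ))^[k] (X i))))) <
            (d ^ k : ℕ) := by
  have hReg : Reg ℂ d Φ := by
    refine ⟨hdeg, fun z hz => hreg z fun i => ?_⟩
    have h1 := eval_iter (L := ℂ) d Φ 1 z i
    rw [Function.iterate_one, Function.iterate_one, bind₁_X_right] at h1
    rw [h1, hz]
    rfl
  refine ⟨hReg, fun L _ _ j z hz hper => ?_⟩
  have hcharL : CharZero L := charZero_of_injective_algebraMap (algebraMap K L).injective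
  have hinj : Function.Injective j := j.injective
  -- points over `L`
  have hne : ∀ x : Fin N → L, x ≠ 0 → infMap d Φ x ≠ 0 := by
    intro x hx h0
    have h1 : infMap d Φ (fun i => j (x i)) = 0 := by
      funext i
      have h2 := congrArg j (congrFun h0 i)
      unfold infMap at h2
      rw [Pi.zero_apply, map_zero, MvPolynomial.comp_aeval_apply] at h2
      exact h2
    have h3 := hReg.2 _ h1
    apply hx
    funext i
    exact (map_eq_zero j).1 (congrFun h3 i)
  have hne' : ∀ (t : ℕ) (x : Fin N → L), x ≠ 0 → (infMap d Φ)^[t] x ≠ 0 := by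
    intro t
    induction t with
    | zero => intro x hx; exact hx
    | succ t ih =>
      intro x hx
      rw [Function.iterate_succ_apply]
      exact ih _ (hne x hx)
  -- the multiplicity of the iterate `k0`
  set m0 : ℕ := d ^ k0 - 1 with hm0
  have hpos : 0 < d ^ k0 := Nat.pow_pos (by omega)
  have hLM : ∀ (x : Fin N → L), x ≠ 0 → ∀ s, LM (itr (tf L d Φ) k0) x s m0 := by
    intro x hx s
    have hx' : (fun i => j (x i)) ≠ 0 := by
      intro h
      apply hx
      funext i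
      exact (map_eq_zero j).1 (congrFun h i)
    obtain ⟨t, ht, ρ, γ, h1⟩ := hmul _ hx'
    have h2 : eval (fun i => (t : L) * x i) (mnr (itr (tf L d Φ) k0) ρ γ) ≠ 0 := by
      intro h3
      apply h1
      have h4 : itr (tf ℂ d Φ) k0 = fun i => MvPolynomial.map (j : L →+* ℂ) (itr (tf L d Φ) k0 i) := by
        funext i
        rw [itr_map]
        congr 1
        funext l
        exact (tf_map L j Φ l).symm
      rw [h4, ← mnr_map]
      have h5 : (fun i => (t : ℂ) * j (x i)) = fun i => (j : L →+* ℂ) ((t : L) * x i) := by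
        funext i
        simp
      rw [h5, eval_map]
      have h6 := eval₂_comp_left (j : L →+* ℂ) (RingHom.id L) (fun i => (t : L) * x i)
        (mnr (itr (tf L d Φ) k0) ρ γ)
      rw [RingHom.comp_id] at h6
      refine h6.symm.trans ?_
      change j (eval (fun i => (t : L) * x i) (mnr (itr (tf L d Φ) k0) ρ γ)) = 0
      rw [h3, map_zero]
    have h3 : LM (itr (tf L d Φ) k0) (fun i => (t : L) * x i) (d ^ k0) m0 :=
      (LM_iff_mnr _ _ _ _).2 ⟨ρ, γ, h2⟩
    have h4 : LM (itr (tf L d Φ) k0) x (d ^ k0) m0 := by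
      refine LM.scale (D := d ^ k0) ?_ (Nat.cast_ne_zero.2 ht.ne') h3
      exact fun i => itr_hom (fun l => homogeneousComponent_isHomogeneous _ _) k0 i
    exact h4.stab (by omega) s
  have hLM' : ∀ (l : ℕ) (x : Fin N → L), x ≠ 0 → ∀ s, LM (itr (tf L d Φ) (k0 * l)) x s (m0 ^ l) := by
    intro l
    induction l with
    | zero =>
      intro x _ s
      have h1 : itr (tf L d Φ) (k0 * 0) = X := by
        funext i
        rfl
      rw [h1, pow_zero]
      exact LM.one_of_le (sys_X x).ge s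
    | succ l ih =>
      intro x hx s
      have h1 : itr (tf L d Φ) (k0 * (l + 1)) =
          fun i => bind₁ (itr (tf L d Φ) k0) (itr (tf L d Φ) (k0 * l) i) := by
        funext i
        rw [← itr_add, mul_add, mul_one, add_comm]
      rw [h1, pow_succ']
      refine (hLM x hx s).comp (ih _ ?_ s)
      have h2 : (fun i => eval x (itr (tf L d Φ) k0 i)) = (infMap d Φ)^[k0] x := by
        funext i
        exact eval_iter d Φ k0 x i
      rw [h2]
      exact hne' k0 x hx
  obtain ⟨k', hk', c, hc0, hcz⟩ := hper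
  refine ⟨k0 * k', Nat.mul_pos hk0 hk', ?_, ?_⟩
  · have h1 : (infMap d Φ)^[k'] z = c • z := by
      funext i
      rw [← eval_iter, hcz i]
      rfl
    have h2 : ∀ l : ℕ, ∃ c' : L, c' ≠ 0 ∧ (infMap d Φ)^[k' * l] z = c' • z := by
      intro l
      induction l with
      | zero => exact ⟨1, one_ne_zero, by rw [one_smul]; rfl⟩
      | succ l ih =>
        obtain ⟨c', hc', h3⟩ := ih
        refine ⟨c ^ d ^ (k' * l) * c', mul_ne_zero (pow_ne_zero _ hc0) hc', ?_⟩
        rw [mul_add, mul_one, Function.iterate_add_apply, h1,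
          Pool.Agent.Helper26.RC.infMap_iter_smul, h3, smul_smul]
    obtain ⟨c', hc', h3⟩ := h2 k0
    refine ⟨c', hc', fun i => ?_⟩
    rw [eval_iter, mul_comm k0 k', h3]
    rfl
  · have h1 := hLM' k' z hz (m0 ^ k' + 1)
    have h2 := mult_le h1 (Nat.lt_succ_self _)
    refine lt_of_le_of_lt h2 ?_
    rw [Nat.cast_lt, pow_mul]
    exact Nat.pow_lt_pow_left (by omega) hk'.ne'

/-- Periodic points have small multiplicities for a generic map. -/
theorem generic2 (N : ℕ) {d : ℕ} (hd : 2 ≤ d) : ∃ Ψ : MvPolynomial (TC N d) ℤ, Ψ ≠ 0 ∧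
    (∀ c : TC N d → ℂ, aeval c Ψ ≠ 0 → ∀ z : Fin N → ℂ, (∀ i, eval z (fm c i) = 0) → z = 0) ∧
    ∀ (K : Type) [Field K] [NumberField K] [Algebra K ℂ] (Φ : Fin N → MvPolynomial (Fin N) K),
      (∀ i, (Φ i).totalDegree ≤ d) → aeval (fun t : TC N d => coeff t.2.1 (Φ t.1)) Ψ ≠ 0 →
      Reg ℂ d Φ ∧ ∀ (L : Type) [Field L] [Algebra K L] (_ : L →ₐ[K] ℂ) (z : Fin N → L), z ≠ 0 →
        (∃ k, 0 < k ∧ ∃ c : L, c ≠ 0 ∧ ∀ i, eval z ((bind₁ (tf L d Φ))^[k] (X i)) = c * z i) →
        ∃ k, 0 < k ∧ (∃ c : L, c ≠ 0 ∧ ∀ i, eval z ((bind₁ (tf L d Φ))^[k] (X i)) = c * z i) ∧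
          mult z (Ideal.span (Set.range fun i =>
            (bind₁ (tf L d Φ))^[k] (X i) - C (eval z ((bind₁ (tf L d Φ))^[k] (X i))))) <
              (d ^ k : ℕ) := by
  obtain ⟨Ψ, hΨ, k0, hk0, hmain⟩ := exists_psi N hd
  refine ⟨Ψ, hΨ, fun c hc => (hmain c hc).1, fun K _ _ _ Φ hdeg hΦ => ?_⟩
  have hc : aeval (fun t : TC N d => algebraMap K ℂ (coeff t.2.1 (Φ t.1))) Ψ ≠ 0 := by
    have h1 : aeval (fun t : TC N d => algebraMap K ℂ (coeff t.2.1 (Φ t.1))) Ψ =
        algebraMap K ℂ (aeval (fun t : TC N d => coeff t.2.1 (Φ t.1)) Ψ) := by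
      rw [← MvPolynomial.aeval_algebraMap_apply]
      rfl
    rw [h1]
    exact (map_ne_zero _).2 hΦ
  obtain ⟨hreg, hmul⟩ := hmain _ hc
  have hfm : fm (d := d) (fun t => algebraMap K ℂ (coeff t.2.1 (Φ t.1))) = tf ℂ d Φ := by
    funext i
    exact fm_tf ℂ Φ i
  rw [hfm] at hreg hmul
  exact per_small hd hk0 Φ hdeg hreg hmul

/-- Periodic points have small multiplicities for a generic map. -/
theorem generic (N : ℕ) {d : ℕ} (hd : 2 ≤ d) : ∃ Ψ : MvPolynomial (TC N d) ℤ, Ψ ≠ 0 ∧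
    ∀ (K : Type) [Field K] [NumberField K] [Algebra K ℂ] (Φ : Fin N → MvPolynomial (Fin N) K),
      (∀ i, (Φ i).totalDegree ≤ d) → aeval (fun t : TC N d => coeff t.2.1 (Φ t.1)) Ψ ≠ 0 →
      Reg ℂ d Φ ∧ ∀ (L : Type) [Field L] [Algebra K L] (_ : L →ₐ[K] ℂ) (z : Fin N → L), z ≠ 0 →
        (∃ k, 0 < k ∧ ∃ c : L, c ≠ 0 ∧ ∀ i, eval z ((bind₁ (tf L d Φ))^[k] (X i)) = c * z i) →
        ∃ k, 0 < k ∧ (∃ c : L, c ≠ 0 ∧ ∀ i, eval z ((bind₁ (tf L d Φ))^[k] (X i)) = c * z i) ∧
          mult z (Ideal.span (Set.range fun i =>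
            (bind₁ (tf L d Φ))^[k] (X i) - C (eval z ((bind₁ (tf L d Φ))^[k] (X i))))) <
              (d ^ k : ℕ) := by
  obtain ⟨Ψ, hΨ, -, h⟩ := generic2 N hd
  exact ⟨Ψ, hΨ, h⟩

end points

end Pool.Agent.Helper61.DG
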